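import Mathlib

/-!
# The Devron property of the three-dimensional pentagram map

`F` sends a `2n`-periodic polygon `A` in real projective 3-space to the polygon whose `i`-th vertex
is the intersection of the line `A_{i-1} A_{i+1}` with the plane `A_{i-2} A_i A_{i+2}`. If the faces
`A_{i-1} A_i A_{i+1}` of `A` pass alternately through two points `P` and `Q`, then after `n - 3`
steps the odd-indexed vertices lie in one plane and the even-indexed vertices lie in one plane, for
every `n ≥ 4` and every such polygon for which the iterates are defined.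

Idea. Write `P_i = a_i A_{i-1} + b_i A_i + c_i A_{i+1}` (`P_i = P` or `Q`) and, if no `b_i` is zero,
`E_0(i) = 1 / b_i`, `E_{r+1}(i) = (a_i E_r(i-1) + c_i E_r(i+1)) / b_i`. Then the vertex `F^k(A)_i` is
`∑ φ(l) A_l`, where `φ` is the unique linear functional supported on `{i-k, i-k+2, ..., i+k}` which
annihilates `E_0, ..., E_{k-1}`: it lies on the line because it is a combination of the two adjacent
functionals of level `k - 1`, and in the plane because `∑ φ(l) A_l = - ∑ (T* φ)(l) A_l`, where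
`T* φ` is supported on `k + 2` places of the other parity and annihilates `E_0, ..., E_{k-2}`. Modulo
`2n` the functionals of one parity annihilating the independent functions `E_0, ..., E_{n-4}` form a
space of dimension `n - (n - 3) = 3`, hence the vertices of one parity of `F^{n-3}(A)` lie in a plane.

If some `b_i` is zero, the numbers `a_i`, `b_i`, `c_i` are replaced by hyperreals infinitely close to
them, `b_i` by a nonzero one, and the functionals are normalised before taking standard parts. The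
only property of the perturbed numbers that is needed is that `∑ φ(l) A_l = - ∑ (T* φ)(l) A_l` holds
for the standard parts (`Shift`); when `P` or `Q` is a vertex `A_j` of the opposite parity (then
`b_{j-1} = b_{j+1} = 0`), the perturbation is chosen by means of the relation between
`A_{j-2}, ..., A_{j+2}` given by the vertex `F(A)_j` of the first iterate.
-/

set_option autoImplicit false

namespace Pool.Agent.Results.MP_d88dfe_an.DevronAll

open Finsupp

section core

variable {K V : Type*} [Field K] [AddCommGroup V] [Module K V]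

/-- The window `{i, i+2, ..., i+2m}`. -/
def W (i : ℤ) (m : ℕ) : Set ℤ := {l | ∃ s : ℕ, s ≤ m ∧ l = i + 2 * s}

/-- The functions `E_r`: `E_0 = e` and `E_(r+1)(i) = a_i E_r(i-1) + c_i E_r(i+1)`. -/
def E (e a c : ℤ → K) : ℕ → ℤ → K
  | 0 => e
  | r + 1 => fun i => a i * E e a c r (i - 1) + c i * E e a c r (i + 1)

/-- The adjoint operator on finitely supported functionals. -/
noncomputable def Ts (a c : ℤ → K) : (ℤ →₀ K) →ₗ[K] (ℤ →₀ K) :=
  Finsupp.linearCombination K (fun l => single (l - 1) (a l) + single (l + 1) (c l))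

lemma ev_Ts {M : Type*} [AddCommGroup M] [Module K M] (a c : ℤ → K) (g : ℤ → M) (φ : ℤ →₀ K) :
    linearCombination K g (Ts a c φ) =
      linearCombination K (fun l => a l • g (l - 1) + c l • g (l + 1)) φ := by
  have : (linearCombination K g).comp (Ts a c) =
      linearCombination K (fun l => a l • g (l - 1) + c l • g (l + 1)) := by
    ext l
    simp [Ts]
  exact LinearMap.congr_fun this φ

/-- `φ` is supported in the window and annihilates `E_0, ..., E_(k-1)`. -/
def InAnn (e a c : ℤ → K) (k : ℕ) (i : ℤ) (m : ℕ) (φ : ℤ →₀ K) : Prop :=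
  φ ∈ supported K K (W i m) ∧ ∀ r < k, linearCombination K (E e a c r) φ = 0

lemma InAnn.mono {e a c : ℤ → K} {k k' : ℕ} {i j : ℤ} {m m' : ℕ} {φ : ℤ →₀ K}
    (h : InAnn e a c k i m φ) (hk : k' ≤ k) (hW : W i m ⊆ W j m') : InAnn e a c k' j m' φ :=
  ⟨supported_mono hW h.1, fun r hr => h.2 r (by omega)⟩

lemma InAnn.comb {e a c : ℤ → K} {k : ℕ} {i : ℤ} {m : ℕ} {φ ψ : ℤ →₀ K}
    (h : InAnn e a c k i m φ) (h' : InAnn e a c k i m ψ) (x y : K) :
    InAnn e a c k i m (x • φ + y • ψ) := by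
  refine ⟨Submodule.add_mem _ (Submodule.smul_mem _ _ h.1) (Submodule.smul_mem _ _ h'.1), ?_⟩
  intro r hr
  rw [map_add, map_smul, map_smul, h.2 r hr, h'.2 r hr]
  simp

lemma W_sub {i j : ℤ} {m m' : ℕ} (d : ℕ) (h : i = j + 2 * d) (hm : m + d ≤ m') :
    W i m ⊆ W j m' := by
  rintro l ⟨s, hs, rfl⟩
  exact ⟨s + d, by omega, by push_cast; rw [h]; ring⟩

/-- removing the leftmost point -/
lemma peel {i : ℤ} {m : ℕ} {φ : ℤ →₀ K} (h : φ ∈ supported K K (W i m)) (h0 : φ i = 0) (m' : ℕ)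
    (hm : m ≤ m' + 1) : φ ∈ supported K K (W (i + 2) m') := by
  rw [mem_supported] at h ⊢
  intro l hl
  obtain ⟨s, hs, hl'⟩ := h hl
  rcases Nat.eq_zero_or_pos s with h1 | h1
  · exfalso
    subst h1
    simp only [Nat.cast_zero, mul_zero, add_zero] at hl'
    rw [hl'] at hl
    simp at hl
    exact hl h0
  · exact ⟨s - 1, by omega, by rw [hl']; push_cast [Nat.cast_sub h1]; ring⟩

lemma Ts_ann {e a c : ℤ → K} {k : ℕ} {i : ℤ} {m : ℕ} {φ : ℤ →₀ K}
    (h : InAnn e a c (k + 1) i m φ) : InAnn e a c k (i - 1) (m + 1) (Ts a c φ) := by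
  constructor
  · have h1 := h.1
    rw [supported_eq_span_single] at h1
    refine Submodule.span_induction ?_ ?_ ?_ ?_ h1
    · rintro x ⟨l, ⟨s, hs, rfl⟩, rfl⟩
      simp only [Ts, linearCombination_single, one_smul]
      refine Submodule.add_mem _ ?_ ?_
      · refine single_mem_supported K _ ⟨s, by omega, by ring⟩
      · refine single_mem_supported K _ ⟨s + 1, by omega, by push_cast; ring⟩
    · simp
    · intro x y _ _ hx hy
      rw [map_add]
      exact Submodule.add_mem _ hx hy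
    · intro t x _ hx
      rw [map_smul]
      exact Submodule.smul_mem _ _ hx
  · intro r hr
    rw [ev_Ts]
    exact h.2 (r + 1) (by omega)

/-- `B'` is the image of `B` under the three-dimensional pentagram map (points as lines through
the origin). -/
def IsFs (B B' : ℤ → Submodule K V) : Prop := ∀ i : ℤ,
  Module.finrank K (B (i - 1) ⊔ B (i + 1) : Submodule K V) = 2 ∧
  Module.finrank K (B (i - 2) ⊔ B i ⊔ B (i + 2) : Submodule K V) = 3 ∧
  (B (i - 1) ⊔ B (i + 1)) ⊓ (B (i - 2) ⊔ B i ⊔ B (i + 2)) = B' i ∧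
  Module.finrank K (B' i) = 1

lemma split2 {e a c : ℤ → K} {k : ℕ} {φ : ℤ → (ℤ →₀ K)}
    (h1 : ∀ i, InAnn e a c k (i - k) k (φ i))
    (h2 : ∀ i ψ, InAnn e a c k (i - k) k ψ → ∃ t : K, ψ = t • φ i)
    (hind : ∀ i (s t : K), s • φ (i - 1) + t • φ (i + 1) = 0 → s = 0 ∧ t = 0)
    (i : ℤ) {ψ : ℤ →₀ K} (hψ : InAnn e a c k (i - 1 - k) (k + 1) ψ) :
    ∃ x y : K, ψ = x • φ (i - 1) + y • φ (i + 1) := by
  have e1 : i - 1 - (k : ℤ) + 2 = i + 1 - k := by ring
  by_cases h0 : φ (i - 1) (i - 1 - k) = 0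
  · exfalso
    have h3 := peel (h1 (i - 1)).1 h0 k (by omega)
    rw [e1] at h3
    obtain ⟨t, ht⟩ := h2 (i + 1) (φ (i - 1)) ⟨h3, (h1 (i - 1)).2⟩
    have h4 := hind i 1 (-t) (by rw [ht]; simp)
    exact one_ne_zero h4.1
  · set t := ψ (i - 1 - k) / φ (i - 1) (i - 1 - k) with ht
    have h3 : InAnn e a c k (i - 1 - k) (k + 1) ((1 : K) • ψ + (-t) • φ (i - 1)) :=
      hψ.comb ((h1 (i - 1)).mono le_rfl (W_sub 0 (by simp) (by omega))) 1 (-t)
    have h4 : ((1 : K) • ψ + (-t) • φ (i - 1)) (i - 1 - k) = 0 := by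
      simp only [coe_add, coe_smul, Pi.add_apply, Pi.smul_apply, smul_eq_mul, ht]
      field_simp
      ring
    have h5 := peel h3.1 h4 k (by omega)
    rw [e1] at h5
    obtain ⟨y, hy⟩ := h2 (i + 1) _ ⟨h5, h3.2⟩
    refine ⟨t, y, ?_⟩
    rw [← hy]
    simp

lemma split3 {e a c : ℤ → K} {k : ℕ} {φ : ℤ → (ℤ →₀ K)}
    (h1 : ∀ i, InAnn e a c k (i - k) k (φ i))
    (h2 : ∀ i ψ, InAnn e a c k (i - k) k ψ → ∃ t : K, ψ = t • φ i)
    (hind : ∀ i (s t : K), s • φ (i - 1) + t • φ (i + 1) = 0 → s = 0 ∧ t = 0)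
    (i : ℤ) {ψ : ℤ →₀ K} (hψ : InAnn e a c k (i - 2 - k) (k + 2) ψ) :
    ∃ x y z : K, ψ = x • φ (i - 2) + y • φ i + z • φ (i + 2) := by
  have e1 : i - 2 - (k : ℤ) + 2 = i - k := by ring
  by_cases h0 : φ (i - 2) (i - 2 - k) = 0
  · exfalso
    have h3 := peel (h1 (i - 2)).1 h0 k (by omega)
    rw [e1] at h3
    obtain ⟨t, ht⟩ := h2 i (φ (i - 2)) ⟨h3, (h1 (i - 2)).2⟩
    have h4 := hind (i - 1) 1 (-t) (by
      rw [show i - 1 - 1 = i - 2 by ring, show i - 1 + 1 = i by ring, ht]; simp)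
    exact one_ne_zero h4.1
  · set t := ψ (i - 2 - k) / φ (i - 2) (i - 2 - k) with ht
    have h3 : InAnn e a c k (i - 2 - k) (k + 2) ((1 : K) • ψ + (-t) • φ (i - 2)) :=
      hψ.comb ((h1 (i - 2)).mono le_rfl (W_sub 0 (by simp) (by omega))) 1 (-t)
    have h4 : ((1 : K) • ψ + (-t) • φ (i - 2)) (i - 2 - k) = 0 := by
      simp only [coe_add, coe_smul, Pi.add_apply, Pi.smul_apply, smul_eq_mul, ht]
      field_simp
      ring
    have h5 := peel h3.1 h4 (k + 1) (by omega)
    rw [show i - 2 - (k : ℤ) + 2 = (i + 1) - 1 - k by ring] at h5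
    obtain ⟨y, z, hyz⟩ := split2 h1 h2 hind (i + 1) ⟨h5, h3.2⟩
    rw [show i + 1 - 1 = i by ring, show i + 1 + 1 = i + 2 by ring] at hyz
    refine ⟨t, y, z, ?_⟩
    rw [add_assoc, ← hyz]
    simp

lemma Ts_apply (a c : ℤ → K) (φ : ℤ →₀ K) (m : ℤ) :
    Ts a c φ m = a (m + 1) * φ (m + 1) + c (m - 1) * φ (m - 1) := by
  induction φ using Finsupp.induction_linear with
  | zero => simp
  | add f g hf hg => rw [map_add, Finsupp.add_apply, hf, hg, Finsupp.add_apply, Finsupp.add_apply]; ring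
  | single l t =>
    simp only [Ts, linearCombination_single, Finsupp.smul_apply, Finsupp.add_apply,
      Finsupp.single_apply, smul_eq_mul]
    by_cases h1 : l = m + 1
    · subst h1
      have h2 : ¬ (m + 1 + 1 = m) := by omega
      have h3 : ¬ (m + 1 = m - 1) := by omega
      simp [h2, h3]; ring
    · by_cases h2 : l = m - 1
      · subst h2
        have h3 : ¬ (m - 1 - 1 = m) := by omega
        have h4 : ¬ (m - 1 = m + 1) := by omega
        simp [h3, h4]; ring
      · have h3 : ¬ (l - 1 = m) := by omega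
        have h4 : ¬ (l + 1 = m) := by omega
        simp [h1, h2, h3, h4]

/-- functionals on one parity class annihilating `E_0, ..., E_(k-1)` -/
def AP (e a c : ℤ → K) (p : ℤ) (k : ℕ) : Submodule K (ℤ →₀ K) where
  carrier := {φ | φ ∈ supported K K {l : ℤ | ∃ q : ℤ, l = p + 2 * q} ∧
    ∀ r < k, linearCombination K (E e a c r) φ = 0}
  add_mem' := by
    rintro x y ⟨hx, hx'⟩ ⟨hy, hy'⟩
    exact ⟨Submodule.add_mem _ hx hy, fun r hr => by rw [map_add, hx' r hr, hy' r hr, add_zero]⟩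
  zero_mem' := ⟨Submodule.zero_mem _, fun r _ => map_zero _⟩
  smul_mem' := by
    rintro t x ⟨hx, hx'⟩
    exact ⟨Submodule.smul_mem _ _ hx, fun r hr => by rw [map_smul, hx' r hr, smul_zero]⟩

/-- folding modulo `N` -/
noncomputable def fold (K : Type*) [Field K] (N : ℕ) : (ℤ →₀ K) →ₗ[K] (ZMod N →₀ K) :=
  Finsupp.lmapDomain K K (Int.cast : ℤ → ZMod N)

lemma ev_fold {M : Type*} [AddCommGroup M] [Module K M] {N : ℕ} [NeZero N] {g : ℤ → M}
    (hg : ∀ i, g (i + N) = g i) (φ : ℤ →₀ K) :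
    linearCombination K g φ =
      linearCombination K (fun z : ZMod N => g (z.val : ℤ)) (fold K N φ) := by
  rw [fold, Finsupp.lmapDomain_apply, Finsupp.linearCombination_mapDomain]
  congr 2
  ext l
  simp only [Function.comp]
  rw [ZMod.val_intCast]
  have hp : Function.Periodic g (N : ℤ) := hg
  conv_lhs => rw [← Int.emod_add_mul_ediv l N]
  rw [mul_comm]
  exact hp.int_mul _ _

lemma fold_finrank (e a c : ℤ → K) (p : ℤ) (n : ℕ) [NeZero (2 * n)] (hn : 0 < n) :
    Module.finrank K (Submodule.map (fold K (2 * n)) (AP e a c p 0)) ≤ n := by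
  classical
  have h1 : Submodule.map (fold K (2 * n)) (AP e a c p 0) ≤ Submodule.span K
      (((Finset.range n).image (fun j : ℕ => (single ((p + 2 * (j : ℤ) : ℤ) : ZMod (2 * n)) (1 : K)
        : ZMod (2 * n) →₀ K)) : Finset (ZMod (2 * n) →₀ K)) : Set (ZMod (2 * n) →₀ K)) := by
    rw [Submodule.map_le_iff_le_comap]
    rintro φ ⟨hφ, -⟩
    rw [supported_eq_span_single] at hφ
    refine Submodule.span_induction ?_ ?_ ?_ ?_ hφ
    · rintro x ⟨l, ⟨q, rfl⟩, rfl⟩
      rw [Submodule.mem_comap]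
      apply Submodule.subset_span
      simp only [Finset.coe_image, Set.mem_image, Finset.coe_range, Set.mem_Iio]
      refine ⟨(q % n).toNat, ?_, ?_⟩
      · have := Int.emod_lt_of_pos q (show (0 : ℤ) < n by exact_mod_cast hn)
        have := Int.emod_nonneg q (show (n : ℤ) ≠ 0 by exact_mod_cast hn.ne')
        omega
      · have h2 := Int.emod_nonneg q (show (n : ℤ) ≠ 0 by exact_mod_cast hn.ne')
        rw [Int.toNat_of_nonneg h2]
        simp only [fold, Finsupp.lmapDomain_apply, Finsupp.mapDomain_single]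
        congr 1
        rw [ZMod.intCast_eq_intCast_iff_dvd_sub]
        have h3 := Int.emod_add_mul_ediv q n
        refine ⟨q / n, ?_⟩
        push_cast
        linear_combination 2 * (-h3)
    · simp
    · intro x y _ _ hx hy
      exact Submodule.add_mem _ hx hy
    · intro t x _ hx
      exact Submodule.smul_mem _ _ hx
  refine (Submodule.finrank_mono h1).trans ?_
  refine (finrank_span_finset_le_card _).trans ?_
  exact Finset.card_image_le.trans (by simp)

lemma fold_drop {e a c : ℤ → K} (p : ℤ) {N : ℕ} [NeZero N] (k : ℕ)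
    (hE : ∀ i, E e a c k (i + N) = E e a c k i)
    (hex : ∃ φ ∈ AP e a c p k, linearCombination K (E e a c k) φ ≠ 0) :
    Module.finrank K (Submodule.map (fold K N) (AP e a c p (k + 1))) <
      Module.finrank K (Submodule.map (fold K N) (AP e a c p k)) := by
  apply Submodule.finrank_lt_finrank_of_lt
  rw [SetLike.lt_iff_le_and_exists]
  constructor
  · apply Submodule.map_mono
    rintro φ ⟨h1, h2⟩
    exact ⟨h1, fun r hr => h2 r (by omega)⟩
  · obtain ⟨φ, hφ, hne⟩ := hex
    refine ⟨fold K N φ, Submodule.mem_map_of_mem hφ, ?_⟩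
    rintro ⟨φ', hφ', he⟩
    apply hne
    rw [ev_fold hE, ← he, ← ev_fold hE]
    exact hφ'.2 k (by omega)

lemma E_per {e a c : ℤ → K} {N : ℤ} (he : ∀ i, e (i + N) = e i) (ha : ∀ i, a (i + N) = a i) (hc : ∀ i, c (i + N) = c i) :
    ∀ r i, E e a c r (i + N) = E e a c r i := by
  intro r
  induction r with
  | zero => exact he
  | succ r ih =>
    intro i
    simp only [E]
    rw [ha, hc, show i + N - 1 = (i - 1) + N by ring, show i + N + 1 = (i + 1) + N by ring, ih, ih]


end core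

/-! ## Standard parts -/

open ArchimedeanClass

/-- finite hyperreals -/
def Fi (x : ℝ*) : Prop := 0 ≤ mk x

lemma Fi_zero : Fi 0 := by unfold Fi; simp
lemma Fi_one : Fi 1 := by unfold Fi; simp
lemma Fi_add {x y : ℝ*} (hx : Fi x) (hy : Fi y) : Fi (x + y) :=
  (le_min hx hy).trans (min_le_mk_add x y)
lemma Fi_mul {x y : ℝ*} (hx : Fi x) (hy : Fi y) : Fi (x * y) := by
  unfold Fi; rw [mk_mul]; exact add_nonneg hx hy
lemma Fi_neg {x : ℝ*} (hx : Fi x) : Fi (-x) := by unfold Fi; rw [mk_neg]; exact hx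
lemma Fi_coe (r : ℝ) : Fi (r : ℝ*) := Hyperreal.archimedeanClassMk_coe_nonneg r
lemma Fi_of_abs {x : ℝ*} (hx : |x| ≤ 1) : Fi x := by
  unfold Fi
  rw [← mk_one, mk_le_mk]
  exact ⟨1, by simpa using hx⟩
lemma Fi_sum {ι : Type*} (s : Finset ι) (f : ι → ℝ*) (h : ∀ i ∈ s, Fi (f i)) :
    Fi (∑ i ∈ s, f i) := by
  classical
  induction s using Finset.induction_on with
  | empty => simpa using Fi_zero
  | insert a s ha ih =>
    rw [Finset.sum_insert ha]
    exact Fi_add (h a (by simp)) (ih fun i hi => h i (by simp [hi]))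

lemma st_sum {ι : Type*} (s : Finset ι) (f : ι → ℝ*) (h : ∀ i ∈ s, Fi (f i)) :
    stdPart (∑ i ∈ s, f i) = ∑ i ∈ s, stdPart (f i) := by
  classical
  induction s using Finset.induction_on with
  | empty => simp
  | insert a s ha ih =>
    rw [Finset.sum_insert ha, Finset.sum_insert ha, stdPart_add (h a (by simp))
      (Fi_sum s f fun i hi => h i (by simp [hi])), ih fun i hi => h i (by simp [hi])]

/-- normalisation of a finite family of hyperreals which are not all zero -/
lemma normalise {ι : Type*} (s : Finset ι) (f : ι → ℝ*) (h : ∃ i ∈ s, f i ≠ 0) :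
    ∃ t : ℝ*, t ≠ 0 ∧ (∀ i ∈ s, Fi (t * f i)) ∧ ∃ i ∈ s, stdPart (t * f i) ≠ 0 := by
  obtain ⟨i1, hi1, hne1⟩ := h
  obtain ⟨i0, hi0, hmax⟩ := Finset.exists_max_image s (fun i => |f i|) ⟨i1, hi1⟩
  have hne : f i0 ≠ 0 := by
    intro h0
    have := hmax i1 hi1
    rw [h0, abs_zero] at this
    exact hne1 (abs_eq_zero.mp (le_antisymm this (abs_nonneg _)))
  refine ⟨(f i0)⁻¹, inv_ne_zero hne, ?_, i0, hi0, ?_⟩
  · intro i hi
    apply Fi_of_abs
    rw [abs_mul, abs_inv]
    have := hmax i hi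
    rw [inv_mul_le_iff₀ (abs_pos.mpr hne), mul_one]
    exact this
  · rw [inv_mul_cancel₀ hne]
    simp

/-- all coefficients finite -/
def FF (φ : ℤ →₀ ℝ*) : Prop := ∀ l, Fi (φ l)

/-- coefficientwise standard part -/
noncomputable def red (φ : ℤ →₀ ℝ*) : ℤ →₀ ℝ := φ.mapRange stdPart stdPart_zero

lemma red_apply (φ : ℤ →₀ ℝ*) (l : ℤ) : red φ l = stdPart (φ l) := rfl

lemma red_sum {ι : Type*} (s : Finset ι) (x : ι → ℝ*) (f : ι → (ℤ →₀ ℝ*))
    (hx : ∀ i ∈ s, Fi (x i)) (hf : ∀ i ∈ s, FF (f i)) :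
    red (∑ i ∈ s, x i • f i) = ∑ i ∈ s, stdPart (x i) • red (f i) := by
  ext l
  rw [red_apply, Finsupp.finsetSum_apply, Finsupp.finsetSum_apply, st_sum]
  · refine Finset.sum_congr rfl fun i hi => ?_
    rw [Finsupp.smul_apply, Finsupp.smul_apply, smul_eq_mul, smul_eq_mul,
      stdPart_mul (hx i hi) (hf i hi l), red_apply]
  · intro i hi
    exact Fi_mul (hx i hi) (hf i hi l)

variable {V : Type*} [AddCommGroup V] [Module ℝ V]

lemma st_zero_of_pos {x : ℝ*} (h : 0 < mk x) : stdPart x = 0 := stdPart_eq_zero.mpr h.ne'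

/-- finite coefficients in combinations of functionals with independent values -/
lemma fin_coeff {ι : Type*} [Fintype ι] {w : ℤ → V} {f : ι → (ℤ →₀ ℝ*)} (hf : ∀ j, FF (f j))
    (hind : LinearIndependent ℝ (fun j => linearCombination ℝ w (red (f j)))) {x : ι → ℝ*}
    (hx : FF (∑ j, x j • f j)) : ∀ j, Fi (x j) := by
  by_contra hcon
  push Not at hcon
  obtain ⟨j1, hj1⟩ := hcon
  have hj1' : mk (x j1) < 0 := not_le.mp hj1
  have hne : x j1 ≠ 0 := by
    intro h0
    rw [h0] at hj1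
    exact hj1 Fi_zero
  obtain ⟨t, ht0, htf, j0, -, hj0⟩ := normalise Finset.univ x ⟨j1, Finset.mem_univ _, hne⟩
  have htpos : 0 < mk t := by
    by_contra hle
    have hle' := not_lt.mp hle
    have h1 := htf j1 (Finset.mem_univ _)
    unfold Fi at h1
    rw [mk_mul] at h1
    have h2 : mk t + mk (x j1) ≤ 0 + mk (x j1) := by gcongr
    rw [zero_add] at h2
    exact absurd (h1.trans h2) (not_le.mpr hj1')
  have h1 : red (∑ j, (t * x j) • f j) = 0 := by
    have h2 : (∑ j, (t * x j) • f j) = t • ∑ j, x j • f j := by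
      rw [Finset.smul_sum]
      exact Finset.sum_congr rfl fun j _ => by rw [smul_smul]
    rw [h2]
    ext l
    rw [red_apply, Finsupp.smul_apply, smul_eq_mul, stdPart_mul htpos.le (hx l),
      st_zero_of_pos htpos, zero_mul]
    rfl
  rw [red_sum _ _ _ (fun j hj => htf j hj) (fun j _ => hf j)] at h1
  have h2 : ∑ j, stdPart (t * x j) • linearCombination ℝ w (red (f j)) = 0 := by
    have h3 := congrArg (linearCombination ℝ w) h1
    rw [map_sum, map_zero] at h3
    rw [← h3]
    exact Finset.sum_congr rfl fun j _ => by rw [map_smul]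
  exact hj0 (Fintype.linearIndependent_iff.mp hind _ h2 j0)

lemma indep_of_val {ι : Type*} [Fintype ι] {w : ℤ → V} {f : ι → (ℤ →₀ ℝ*)} (hf : ∀ j, FF (f j))
    (hind : LinearIndependent ℝ (fun j => linearCombination ℝ w (red (f j)))) {x : ι → ℝ*}
    (hx : (∑ j, x j • f j) = 0) : ∀ j, x j = 0 := by
  by_contra hcon
  push Not at hcon
  obtain ⟨j1, hj1⟩ := hcon
  obtain ⟨t, ht0, htf, j0, -, hj0⟩ := normalise Finset.univ x ⟨j1, Finset.mem_univ _, hj1⟩
  have h1 : red (∑ j, (t * x j) • f j) = 0 := by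
    have h2 : (∑ j, (t * x j) • f j) = t • ∑ j, x j • f j := by
      rw [Finset.smul_sum]
      exact Finset.sum_congr rfl fun j _ => by rw [smul_smul]
    rw [h2, hx, smul_zero]
    ext l
    simp [red_apply]
  rw [red_sum _ _ _ (fun j hj => htf j hj) (fun j _ => hf j)] at h1
  have h2 : ∑ j, stdPart (t * x j) • linearCombination ℝ w (red (f j)) = 0 := by
    have h3 := congrArg (linearCombination ℝ w) h1
    rw [map_sum, map_zero] at h3
    rw [← h3]
    exact Finset.sum_congr rfl fun j _ => by rw [map_smul]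
  exact hj0 (Fintype.linearIndependent_iff.mp hind _ h2 j0)

/-- evaluation at `v` may be moved to the other parity, up to infinitesimals -/
def Shift (e av cv : ℤ → ℝ*) (v : ℤ → V) : Prop := ∀ (i : ℤ) (m : ℕ) (ψ : ℤ →₀ ℝ*),
  InAnn e av cv 1 i m ψ → FF ψ → FF (Ts av cv ψ) →
    linearCombination ℝ v (red ψ) = - linearCombination ℝ v (red (Ts av cv ψ))

/-- primitive integral functionals have nonzero value, lying in both spans -/
lemma prim {e av cv : ℤ → ℝ*} {v : ℤ → V} (D : Shift e av cv v) {i : ℤ}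
    {m k : ℕ} (hk : 1 ≤ k) {ψ : ℤ →₀ ℝ*}
    (h : InAnn e av cv 1 i m ψ)
    (hF : ∀ r < k + 1, FF ((Ts av cv ^ r) ψ))
    (hp : ∃ r < k + 1, ∃ l, stdPart (((Ts av cv ^ r) ψ) l) ≠ 0)
    {ι κ : Type*} [Fintype ι] [Fintype κ] {f : ι → (ℤ →₀ ℝ*)} {g : κ → (ℤ →₀ ℝ*)}
    (hf : ∀ j, ∀ r < k, FF ((Ts av cv ^ r) (f j)))
    (hg : ∀ j, ∀ r < k, FF ((Ts av cv ^ r) (g j)))
    (hfi : LinearIndependent ℝ (fun j => linearCombination ℝ v (red (f j))))
    (hgi : LinearIndependent ℝ (fun j => linearCombination ℝ v (red (g j))))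
    {x : ι → ℝ*} {y : κ → ℝ*} (hx : ψ = ∑ j, x j • f j)
    (hy : Ts av cv ψ = ∑ j, y j • g j) :
    linearCombination ℝ v (red ψ) ≠ 0 ∧
    linearCombination ℝ v (red ψ) ∈ Submodule.span ℝ
      (Set.range fun j => linearCombination ℝ v (red (f j))) ∧
    linearCombination ℝ v (red ψ) ∈ Submodule.span ℝ
      (Set.range fun j => linearCombination ℝ v (red (g j))) := by
  set T := Ts av cv with hT
  have hF0 : FF ψ := by simpa using hF 0 (by omega)
  have hF1 : FF (T ψ) := by simpa using hF 1 (by omega)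
  have hf0 : ∀ j, FF (f j) := fun j => by simpa using hf j 0 (by omega)
  have hg0 : ∀ j, FF (g j) := fun j => by simpa using hg j 0 (by omega)
  have hxF : ∀ j, Fi (x j) := fin_coeff hf0 hfi (by rw [← hx]; exact hF0)
  have hyF : ∀ j, Fi (y j) := fin_coeff hg0 hgi (by rw [← hy]; exact hF1)
  have e1 : linearCombination ℝ v (red ψ) =
      ∑ j, stdPart (x j) • linearCombination ℝ v (red (f j)) := by
    rw [hx, red_sum _ _ _ (fun j _ => hxF j) (fun j _ => hf0 j), map_sum]
    exact Finset.sum_congr rfl fun j _ => by rw [map_smul]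
  have e2 : linearCombination ℝ v (red (T ψ)) =
      ∑ j, stdPart (y j) • linearCombination ℝ v (red (g j)) := by
    rw [hy, red_sum _ _ _ (fun j _ => hyF j) (fun j _ => hg0 j), map_sum]
    exact Finset.sum_congr rfl fun j _ => by rw [map_smul]
  have e3 := D i m ψ h hF0 hF1
  refine ⟨?_, ?_, ?_⟩
  · intro h0
    have h1 := Fintype.linearIndependent_iff.mp hfi (fun j => stdPart (x j)) (by rw [← e1]; exact h0)
    have h2 := Fintype.linearIndependent_iff.mp hgi (fun j => stdPart (y j)) (by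
      rw [← e2]; rw [h0] at e3; exact neg_eq_zero.mp e3.symm)
    obtain ⟨r, hr, l, hl⟩ := hp
    apply hl
    rcases Nat.eq_zero_or_pos r with h3 | h3
    · subst h3
      have h4 := red_sum Finset.univ x f (fun j _ => hxF j) (fun j _ => hf0 j)
      rw [← hx] at h4
      have h5 := DFunLike.congr_fun h4 l
      rw [red_apply] at h5
      rw [pow_zero, Module.End.one_apply, h5]
      simp [h1]
    · obtain ⟨r', rfl⟩ : ∃ r', r = r' + 1 := ⟨r - 1, by omega⟩
      have h4 := red_sum Finset.univ y (fun j => (T ^ r') (g j)) (fun j _ => hyF j)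
        (fun j _ => hg j r' (by omega))
      have h6 : (T ^ (r' + 1)) ψ = ∑ j, y j • (T ^ r') (g j) := by
        rw [pow_succ, Module.End.mul_apply, hy, map_sum]
        exact Finset.sum_congr rfl fun j _ => by rw [map_smul]
      rw [← h6] at h4
      have h5 := DFunLike.congr_fun h4 l
      rw [red_apply] at h5
      rw [h5]
      simp [h2]
  · rw [e1]
    refine Submodule.sum_mem _ fun j _ => Submodule.smul_mem _ _ (Submodule.subset_span ⟨j, rfl⟩)
  · rw [e3, e2]
    refine Submodule.neg_mem _ (Submodule.sum_mem _ fun j _ =>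
      Submodule.smul_mem _ _ (Submodule.subset_span ⟨j, rfl⟩))

/-- normalisation of a functional together with its images under powers of `T` -/
lemma norm_fun (T : (ℤ →₀ ℝ*) →ₗ[ℝ*] (ℤ →₀ ℝ*)) (k : ℕ) {φ : ℤ →₀ ℝ*} (hφ : φ ≠ 0) :
    ∃ t : ℝ*, t ≠ 0 ∧ (∀ r < k + 1, FF ((T ^ r) (t • φ))) ∧
      ∃ r < k + 1, ∃ l, stdPart (((T ^ r) (t • φ)) l) ≠ 0 := by
  classical
  set s : Finset (ℕ × ℤ) := (Finset.range (k + 1)).biUnion
    (fun r => ((T ^ r) φ).support.image (fun l => (r, l))) with hs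
  have hmem : ∀ r l, (r, l) ∈ s ↔ r < k + 1 ∧ ((T ^ r) φ) l ≠ 0 := by
    intro r l
    simp [hs]
  obtain ⟨l0, hl0⟩ := Finsupp.ne_iff.mp hφ
  obtain ⟨t, ht, h1, ⟨r, l⟩, hrl, h2⟩ := normalise s (fun p => ((T ^ p.1) φ) p.2)
    ⟨(0, l0), (hmem _ _).mpr ⟨by omega, by simpa using hl0⟩, by simpa using hl0⟩
  refine ⟨t, ht, ?_, r, ((hmem r l).mp hrl).1, l, ?_⟩
  · intro r' hr' l'
    rw [map_smul, Finsupp.smul_apply, smul_eq_mul]
    by_cases h0 : ((T ^ r') φ) l' = 0
    · rw [h0, mul_zero]; exact Fi_zero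
    · exact h1 (r', l') ((hmem _ _).mpr ⟨hr', h0⟩)
  · rw [map_smul, Finsupp.smul_apply, smul_eq_mul]
    exact h2

lemma pair_indep {u v : V} (h : Module.finrank ℝ ((ℝ ∙ u) ⊔ (ℝ ∙ v) : Submodule ℝ V) = 2) :
    LinearIndependent ℝ ![u, v] := by
  have hr : Set.range ![u, v] = {u, v} := by
    ext x
    simp only [Set.mem_range, Fin.exists_fin_two, Set.mem_insert_iff, Set.mem_singleton_iff]
    simp [eq_comm]
  rw [linearIndependent_iff_card_eq_finrank_span, Set.finrank, hr, Submodule.span_insert, h]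
  rfl

lemma triple_indep {u v w : V}
    (h : Module.finrank ℝ ((ℝ ∙ u) ⊔ (ℝ ∙ v) ⊔ (ℝ ∙ w) : Submodule ℝ V) = 3) :
    LinearIndependent ℝ ![u, v, w] := by
  have hr : Set.range ![u, v, w] = {u, v, w} := by
    ext x
    simp only [Set.mem_range, Fin.exists_fin_succ, Set.mem_insert_iff, Set.mem_singleton_iff]
    simp [eq_comm]
  rw [linearIndependent_iff_card_eq_finrank_span, Set.finrank, hr, Submodule.span_insert,
    Submodule.span_insert, ← sup_assoc, h]
  rfl

/-- The induction statement at level `k`. -/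
def LevH (e av cv : ℤ → ℝ*) (v : ℤ → V) (k : ℕ) (B : ℤ → Submodule ℝ V)
    (φ : ℤ → (ℤ →₀ ℝ*)) : Prop :=
  ∀ i, InAnn e av cv k (i - k) k (φ i) ∧
    (∀ ψ, InAnn e av cv k (i - k) k ψ → ∃ t : ℝ*, ψ = t • φ i) ∧
    (∀ r < k + 1, FF ((Ts av cv ^ r) (φ i))) ∧
    B i = ℝ ∙ (linearCombination ℝ v (red (φ i)))

lemma stepH {e av cv : ℤ → ℝ*} {v : ℤ → V} (D : Shift e av cv v) {k : ℕ}
    {B B' : ℤ → Submodule ℝ V} {φ : ℤ → (ℤ →₀ ℝ*)}
    (hL : LevH e av cv v k B φ) (hF : IsFs B B') :
    (∃ φ' : ℤ → (ℤ →₀ ℝ*), LevH e av cv v (k + 1) B' φ') ∧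
      ∀ i, linearCombination ℝ* (E e av cv k) (φ (i - 1)) ≠ 0 ∨
        linearCombination ℝ* (E e av cv k) (φ (i + 1)) ≠ 0 := by
  set T := Ts av cv with hT
  set EE := E e av cv with hEE
  have hk : 1 ≤ k + 1 := by omega
  have hff : ∀ i, FF (φ i) := fun i => by simpa using (hL i).2.2.1 0 (by omega)
  have hi2 : ∀ i, LinearIndependent ℝ
      (fun j : Fin 2 => linearCombination ℝ v (red (![φ (i - 1), φ (i + 1)] j))) := by
    intro i
    have h := (hF i).1
    rw [(hL (i - 1)).2.2.2, (hL (i + 1)).2.2.2] at h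
    have h1 := pair_indep h
    convert h1 using 1
    ext j
    fin_cases j <;> rfl
  have hi3 : ∀ i, LinearIndependent ℝ
      (fun j : Fin 3 => linearCombination ℝ v (red (![φ (i - 2), φ i, φ (i + 2)] j))) := by
    intro i
    have h := (hF i).2.1
    rw [(hL (i - 2)).2.2.2, (hL i).2.2.2, (hL (i + 2)).2.2.2] at h
    have h1 := triple_indep h
    convert h1 using 1
    ext j
    fin_cases j <;> rfl
  have hne : ∀ i, linearCombination ℝ v (red (φ i)) ≠ 0 := by
    intro i
    have h := (hi2 (i + 1)).ne_zero 0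
    rw [show i + 1 - 1 = i by ring] at h
    exact h
  have hff2 : ∀ i (j : Fin 2), ∀ r < k + 1, FF ((T ^ r) (![φ (i - 1), φ (i + 1)] j)) := by
    intro i j r hr
    fin_cases j
    · exact (hL (i - 1)).2.2.1 r hr
    · exact (hL (i + 1)).2.2.1 r hr
  have hff3 : ∀ i (j : Fin 3), ∀ r < k + 1, FF ((T ^ r) (![φ (i - 2), φ i, φ (i + 2)] j)) := by
    intro i j r hr
    fin_cases j
    · exact (hL (i - 2)).2.2.1 r hr
    · exact (hL i).2.2.1 r hr
    · exact (hL (i + 2)).2.2.1 r hr
  have hind : ∀ i (s t : ℝ*), s • φ (i - 1) + t • φ (i + 1) = 0 → s = 0 ∧ t = 0 := by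
    intro i s t hst
    have h := indep_of_val (f := ![φ (i - 1), φ (i + 1)])
      (fun j => by simpa using hff2 i j 0 (by omega)) (hi2 i) (x := ![s, t])
      (by rw [Fin.sum_univ_two]; exact hst)
    exact ⟨h 0, h 1⟩
  have h1 : ∀ i, InAnn e av cv k (i - k) k (φ i) := fun i => (hL i).1
  have h2 : ∀ i ψ, InAnn e av cv k (i - k) k ψ → ∃ t : ℝ*, ψ = t • φ i :=
    fun i => (hL i).2.1
  have hrange2 : ∀ i, Submodule.span ℝ (Set.range fun j : Fin 2 =>
      linearCombination ℝ v (red (![φ (i - 1), φ (i + 1)] j))) ≤ B (i - 1) ⊔ B (i + 1) := by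
    intro i
    rw [Submodule.span_le]
    rintro _ ⟨j, rfl⟩
    fin_cases j
    · refine Submodule.mem_sup_left ?_
      rw [(hL (i - 1)).2.2.2]
      exact Submodule.mem_span_singleton_self _
    · refine Submodule.mem_sup_right ?_
      rw [(hL (i + 1)).2.2.2]
      exact Submodule.mem_span_singleton_self _
  have hrange3 : ∀ i, Submodule.span ℝ (Set.range fun j : Fin 3 =>
      linearCombination ℝ v (red (![φ (i - 2), φ i, φ (i + 2)] j))) ≤
        B (i - 2) ⊔ B i ⊔ B (i + 2) := by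
    intro i
    rw [Submodule.span_le]
    rintro _ ⟨j, rfl⟩
    fin_cases j
    · refine Submodule.mem_sup_left (Submodule.mem_sup_left ?_)
      rw [(hL (i - 2)).2.2.2]
      exact Submodule.mem_span_singleton_self _
    · refine Submodule.mem_sup_left (Submodule.mem_sup_right ?_)
      rw [(hL i).2.2.2]
      exact Submodule.mem_span_singleton_self _
    · refine Submodule.mem_sup_right ?_
      rw [(hL (i + 2)).2.2.2]
      exact Submodule.mem_span_singleton_self _
  have hzero : ∀ i, φ i ≠ 0 := by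
    intro i h0
    apply hne i
    rw [h0]
    have : red 0 = 0 := by ext l; simp [red_apply]
    rw [this, map_zero]
  have key : ∀ i, linearCombination ℝ* (EE k) (φ i) = 0 → B i ≤ B (i - 1) ⊔ B (i + 1) := by
    intro i hi
    have g1 : InAnn e av cv (k + 1) (i - k) k (φ i) := by
      refine ⟨(h1 i).1, ?_⟩
      intro r hr
      rcases Nat.lt_succ_iff_lt_or_eq.mp hr with h | h
      · exact (h1 i).2 r h
      · rw [h]; exact hi
    obtain ⟨t, ht0, htF, htp⟩ := norm_fun T (k + 1) (hzero i)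
    have g2 : InAnn e av cv (k + 1) (i - k) k (t • φ i) := by
      have := g1.comb g1 t 0
      simpa using this
    have g3 := Ts_ann g2
    rw [show i - (k : ℤ) - 1 = i - 1 - k by ring] at g3
    obtain ⟨x, y, hxy⟩ := split2 h1 h2 hind i g3
    have g4 := prim D hk (g2.mono (by omega) (le_refl _)) htF htp (f := fun _ : Fin 1 => φ i)
      (g := ![φ (i - 1), φ (i + 1)]) (fun _ r hr => (hL i).2.2.1 r hr) (hff2 i)
      (linearIndependent_unique_iff.mpr (hne i)) (hi2 i) (x := fun _ => t) (y := ![x, y])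
      (by simp) (by rw [Fin.sum_univ_two]; exact hxy)
    obtain ⟨g5, g6, g7⟩ := g4
    have g8 := hrange2 i g7
    rw [Set.range_const, Submodule.mem_span_singleton] at g6
    obtain ⟨s, hs⟩ := g6
    have hs0 : s ≠ 0 := by
      rintro rfl
      rw [zero_smul] at hs
      exact g5 hs.symm
    rw [(hL i).2.2.2, Submodule.span_singleton_le_iff_mem]
    have g9 := Submodule.smul_mem _ s⁻¹ g8
    rwa [← hs, smul_smul, inv_mul_cancel₀ hs0, one_smul] at g9
  have hZ : ∀ i, linearCombination ℝ* (EE k) (φ (i - 1)) ≠ 0 ∨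
        linearCombination ℝ* (EE k) (φ (i + 1)) ≠ 0 := by
    intro i
    by_contra hcon
    push Not at hcon
    have g1 := key (i - 1) hcon.1
    have g2 := key (i + 1) hcon.2
    rw [show i - 1 - 1 = i - 2 by ring, show i - 1 + 1 = i by ring] at g1
    rw [show i + 1 - 1 = i by ring, show i + 1 + 1 = i + 2 by ring] at g2
    have g3 : B (i - 1) ⊔ B (i + 1) ≤ B (i - 2) ⊔ B i ⊔ B (i + 2) := by
      refine sup_le (g1.trans le_sup_left) (g2.trans ?_)
      exact sup_le (le_sup_right.trans le_sup_left) le_sup_right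
    have g4 := (hF i).2.2.1
    rw [inf_eq_left.mpr g3] at g4
    have g5 := (hF i).1
    rw [g4, (hF i).2.2.2] at g5
    omega
  refine ⟨?_, hZ⟩
  have hex : ∀ i, ∃ φ' : ℤ →₀ ℝ*,
      InAnn e av cv (k + 1) (i - (k + 1 : ℕ)) (k + 1) φ' ∧
      (∀ ψ, InAnn e av cv (k + 1) (i - (k + 1 : ℕ)) (k + 1) ψ →
        ∃ t : ℝ*, ψ = t • φ') ∧
      (∀ r < k + 1 + 1, FF ((T ^ r) φ')) ∧
      B' i = ℝ ∙ (linearCombination ℝ v (red φ')) := by
    intro i
    set α := linearCombination ℝ* (EE k) (φ (i - 1)) with hα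
    set β := linearCombination ℝ* (EE k) (φ (i + 1)) with hβ
    have e0 : i - ((k + 1 : ℕ) : ℤ) = i - 1 - k := by push_cast; ring
    have hw1 : InAnn e av cv k (i - 1 - k) (k + 1) (φ (i - 1)) :=
      (h1 (i - 1)).mono le_rfl (W_sub 0 (by simp) (by omega))
    have hw2 : InAnn e av cv k (i - 1 - k) (k + 1) (φ (i + 1)) :=
      (h1 (i + 1)).mono le_rfl (W_sub 1 (by push_cast; ring) (by omega))
    set φ0 := β • φ (i - 1) + (-α) • φ (i + 1) with hφ0
    have hnew0 : InAnn e av cv (k + 1) (i - ((k + 1 : ℕ) : ℤ)) (k + 1) φ0 := by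
      rw [e0]
      refine ⟨(hw1.comb hw2 β (-α)).1, ?_⟩
      intro r hr
      rcases Nat.lt_succ_iff_lt_or_eq.mp hr with h | h
      · exact (hw1.comb hw2 β (-α)).2 r h
      · rw [h, hφ0, map_add, map_smul, map_smul, ← hEE, ← hα, ← hβ]
        simp only [smul_eq_mul]; ring
    have hφ0ne : φ0 ≠ 0 := by
      intro h0
      obtain ⟨g1, g2⟩ := hind i _ _ h0
      rcases hZ i with h | h
      · exact h (by rw [← hα]; exact neg_eq_zero.mp g2)
      · exact h g1
    obtain ⟨t, ht0, htF, htp⟩ := norm_fun T (k + 1) hφ0ne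
    have hnew : InAnn e av cv (k + 1) (i - ((k + 1 : ℕ) : ℤ)) (k + 1) (t • φ0) := by
      have := hnew0.comb hnew0 t 0
      simpa using this
    have g3 := Ts_ann hnew
    rw [show i - ((k + 1 : ℕ) : ℤ) - 1 = i - 2 - k by push_cast; ring] at g3
    obtain ⟨x, y, z, hxyz⟩ := split3 h1 h2 hind i g3
    have g4 := prim D hk (hnew.mono (by omega) (le_refl _)) htF htp
      (f := ![φ (i - 1), φ (i + 1)])
      (g := ![φ (i - 2), φ i, φ (i + 2)]) (hff2 i) (hff3 i) (hi2 i) (hi3 i)
      (x := ![t * β, t * (-α)]) (y := ![x, y, z])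
      (by rw [Fin.sum_univ_two, hφ0, smul_add, smul_smul, smul_smul]; rfl)
      (by rw [Fin.sum_univ_three]; exact hxyz)
    obtain ⟨g5, g6, g7⟩ := g4
    refine ⟨t • φ0, hnew, ?_, htF, ?_⟩
    · intro ψ hψ
      have hψ' : InAnn e av cv k (i - 1 - k) (k + 1) ψ := by
        rw [← e0]; exact hψ.mono (by omega) (le_refl _)
      obtain ⟨x', y', hxy⟩ := split2 h1 h2 hind i hψ'
      have q1 := hψ.2 k (by omega)
      rw [hxy, map_add, map_smul, map_smul, ← hEE, ← hα, ← hβ, smul_eq_mul, smul_eq_mul] at q1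
      have q2 : ∃ s : ℝ*, ψ = s • φ0 := by
        rcases hZ i with h | h
        · rw [← hα] at h
          refine ⟨- y' / α, ?_⟩
          have hx : x' = - y' / α * β := by field_simp; linear_combination q1
          have hy : - y' / α * (-α) = y' := by field_simp
          rw [hφ0, hxy, smul_add, smul_smul, smul_smul, ← hx, hy]
        · rw [← hβ] at h
          refine ⟨x' / β, ?_⟩
          have hy : y' = x' / β * (-α) := by field_simp; linear_combination q1
          have hx : x' / β * β = x' := by field_simp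
          rw [hφ0, hxy, smul_add, smul_smul, smul_smul, ← hy, hx]
      obtain ⟨s, hs⟩ := q2
      refine ⟨s * t⁻¹, ?_⟩
      rw [smul_smul, mul_assoc, inv_mul_cancel₀ ht0, mul_one]
      exact hs
    · have hmem : linearCombination ℝ v (red (t • φ0)) ∈ B' i := by
        rw [← (hF i).2.2.1]
        exact ⟨hrange2 i g6, hrange3 i g7⟩
      have q1 := (hF i).2.2.2
      exact ((finrank_eq_one_iff_of_nonzero' (⟨_, hmem⟩ : B' i) (by simpa using g5)).mp q1 |>
        fun hall => by
          apply le_antisymm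
          · intro u hu
            obtain ⟨s, hs⟩ := hall ⟨u, hu⟩
            rw [Submodule.mem_span_singleton]
            exact ⟨s, by simpa using congrArg Subtype.val hs⟩
          · rw [Submodule.span_singleton_le_iff_mem]; exact hmem)
  choose φ' hφ' using hex
  exact ⟨φ', hφ'⟩


lemma levH_zero {e av cv : ℤ → ℝ*} {v : ℤ → V} {B : ℤ → Submodule ℝ V} (hB : ∀ i, B i = ℝ ∙ (v i)) :
    LevH e av cv v 0 B (fun i => single i 1) := by
  intro i
  refine ⟨⟨single_mem_supported ℝ* _ ⟨0, le_rfl, by simp⟩, by omega⟩, ?_, ?_, ?_⟩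
  · rintro ψ ⟨h, -⟩
    refine ⟨ψ i, ?_⟩
    ext l
    by_cases hl : l = i
    · subst hl; simp
    · have h1 : ψ l = 0 := by
        by_contra hne
        obtain ⟨s, hs, hl'⟩ := (mem_supported ℝ* ψ).mp h (mem_support_iff.mpr hne)
        apply hl
        have : s = 0 := by omega
        subst this
        simpa using hl'
      rw [h1]
      simp [Ne.symm hl]
  · intro r hr l
    obtain rfl : r = 0 := by omega
    rw [pow_zero, Module.End.one_apply, Finsupp.single_apply]
    split_ifs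
    · exact Fi_one
    · exact Fi_zero
  · have hred : red (single i 1) = single i 1 := by
      ext l
      rw [red_apply, Finsupp.single_apply, Finsupp.single_apply]
      split_ifs <;> simp
    rw [hred, hB, linearCombination_single, one_smul]

/-- The core statement: after `n - 3` steps the vertices of one parity lie in a plane. -/
theorem core_main {n : ℕ} (hn : 4 ≤ n) {e av cv : ℤ → ℝ*}
    {v : ℤ → (Fin 4 → ℝ)} (D : Shift e av cv v)
    (hv : ∀ i, v (i + (2 * n : ℕ)) = v i) (he : ∀ i, e (i + (2 * n : ℕ)) = e i)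
    (hα : ∀ i, av (i + (2 * n : ℕ)) = av i) (hγ : ∀ i, cv (i + (2 * n : ℕ)) = cv i)
    {C : ℕ → ℤ → Submodule ℝ (Fin 4 → ℝ)} (hC0 : ∀ i, C 0 i = ℝ ∙ (v i))
    (hC : ∀ k < n - 3, IsFs (C k) (C (k + 1))) (p : ℤ) :
    ∃ f : Module.Dual ℝ (Fin 4 → ℝ), f ≠ 0 ∧
      ∀ q : ℤ, C (n - 3) (p + 2 * q) ≤ LinearMap.ker f := by
  have : NeZero (2 * n) := ⟨by omega⟩
  have hlev : ∀ k, k ≤ n - 3 → ∃ φ, LevH e av cv v k (C k) φ := by
    intro k
    induction k with
    | zero => intro _; exact ⟨_, levH_zero hC0⟩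
    | succ k ih =>
      intro hk
      obtain ⟨φ, hφ⟩ := ih (by omega)
      exact (stepH D hφ (hC k (by omega))).1
  have hmemAP : ∀ k (φ : ℤ → (ℤ →₀ ℝ*)), LevH e av cv v k (C k) φ → ∀ j q : ℤ,
      φ (j + k + 2 * q) ∈ AP e av cv j k := by
    intro k φ hφ j q
    refine ⟨?_, (hφ _).1.2⟩
    refine supported_mono ?_ (hφ (j + k + 2 * q)).1.1
    rintro l ⟨s, -, rfl⟩
    exact ⟨q + s, by ring⟩
  set p' : ℤ := p - ((n - 3 : ℕ) : ℤ) with hp'
  have hdrop : ∀ k ≤ n - 3, Module.finrank ℝ*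
      (Submodule.map (fold ℝ* (2 * n)) (AP e av cv p' k)) + k ≤ n := by
    intro k
    induction k with
    | zero => intro _; simpa using fold_finrank e av cv p' n (by omega)
    | succ k ih =>
      intro hk
      have h1 := ih (by omega)
      have h3 : ∃ ψ ∈ AP e av cv p' k, linearCombination ℝ* (E e av cv k) ψ ≠ 0 := by
        obtain ⟨φ, hφ⟩ := hlev k (by omega)
        have h2 := (stepH D hφ (hC k (by omega))).2 (p' + k + 1)
        rcases h2 with h | h
        · refine ⟨_, ?_, h⟩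
          have := hmemAP k φ hφ p' 0
          rw [show p' + (k : ℤ) + 1 - 1 = p' + k + 2 * 0 by ring]
          exact this
        · refine ⟨_, ?_, h⟩
          have := hmemAP k φ hφ p' 1
          rw [show p' + (k : ℤ) + 1 + 1 = p' + k + 2 * 1 by ring]
          exact this
      have h4 := fold_drop p' (N := 2 * n) k (E_per he hα hγ k) h3
      omega
  obtain ⟨φ, hφ⟩ := hlev (n - 3) le_rfl
  set wL : ℤ → (Fin 4 → ℝ*) := fun l j => ((v l j : ℝ) : ℝ*) with hwL
  have hwLp : ∀ i, wL (i + (2 * n : ℕ)) = wL i := by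
    intro i
    simp only [hwL]
    rw [hv]
  set S : Submodule ℝ* (Fin 4 → ℝ*) :=
    Submodule.map (linearCombination ℝ* (fun z : ZMod (2 * n) => wL (z.val : ℤ)))
      (Submodule.map (fold ℝ* (2 * n)) (AP e av cv p' (n - 3))) with hS
  have hS3 : Module.finrank ℝ* S ≤ 3 := by
    refine (Submodule.finrank_map_le _ _).trans ?_
    have := hdrop (n - 3) le_rfl
    omega
  have hSmem : ∀ q : ℤ, linearCombination ℝ* wL (φ (p + 2 * q)) ∈ S := by
    intro q
    rw [ev_fold hwLp]
    apply Submodule.mem_map_of_mem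
    apply Submodule.mem_map_of_mem
    have := hmemAP (n - 3) φ hφ p' q
    rw [hp'] at this ⊢
    rwa [sub_add_cancel] at this
  have hlt : S < ⊤ := by
    rw [lt_top_iff_ne_top]
    intro h
    rw [h, finrank_top] at hS3
    simp at hS3
  obtain ⟨fL, hfL, hfL'⟩ := Submodule.exists_le_ker_of_lt_top S hlt
  set g : Fin 4 → ℝ* := fun i => fL (fun j => if i = j then 1 else 0) with hg
  have hfLx : ∀ x, fL x = ∑ i, x i * g i := by
    intro x
    rw [LinearMap.pi_apply_eq_sum_univ fL x]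
    simp [hg]
  have hgne : ∃ i ∈ (Finset.univ : Finset (Fin 4)), g i ≠ 0 := by
    by_contra hcon
    push Not at hcon
    apply hfL
    ext x
    rw [LinearMap.comp_apply, hfLx]
    simp [hcon]
  obtain ⟨t, ht0, htF, i0, -, hi0⟩ := normalise Finset.univ g hgne
  set f : Module.Dual ℝ (Fin 4 → ℝ) := ∑ i, stdPart (t * g i) • LinearMap.proj i with hf
  have hfx : ∀ x, f x = ∑ i, stdPart (t * g i) * x i := by
    intro x
    rw [hf, LinearMap.sum_apply]
    rfl
  refine ⟨f, ?_, ?_⟩
  · intro h0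
    apply hi0
    have h1 := hfx (Pi.single i0 1)
    rw [h0] at h1
    simp [Pi.single_apply] at h1
    exact h1.symm
  · intro q
    rw [(hφ _).2.2.2, Submodule.span_singleton_le_iff_mem, LinearMap.mem_ker, hfx]
    set ψ := φ (p + 2 * q) with hψ
    have hF : FF ψ := by simpa using (hφ (p + 2 * q)).2.2.1 0 (by omega)
    have e1 : ∀ j, linearCombination ℝ v (red ψ) j = stdPart (linearCombination ℝ* wL ψ j) := by
      intro j
      rw [linearCombination_apply, linearCombination_apply,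
        Finsupp.sum_of_support_subset (red ψ) (s := ψ.support) (by
        intro l hl
        rw [mem_support_iff] at hl ⊢
        intro h0
        apply hl
        rw [red_apply, h0]; simp) _ (by simp), Finsupp.sum, Finset.sum_apply, Finset.sum_apply,
        st_sum _ _ (fun l _ => by
          rw [Pi.smul_apply, smul_eq_mul]
          exact Fi_mul (hF l) (Fi_coe _))]
      refine Finset.sum_congr rfl fun l _ => ?_
      rw [Pi.smul_apply, Pi.smul_apply, smul_eq_mul, smul_eq_mul, stdPart_mul (hF l) (Fi_coe _),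
        Hyperreal.stdPart_coe]
      rfl
    have hX : ∀ j, Fi (linearCombination ℝ* wL ψ j) := by
      intro j
      rw [linearCombination_apply, Finsupp.sum, Finset.sum_apply]
      exact Fi_sum _ _ fun l _ => by
        rw [Pi.smul_apply, smul_eq_mul]
        exact Fi_mul (hF l) (Fi_coe _)
    have e2 : ∑ i, (t * g i) * linearCombination ℝ* wL ψ i = 0 := by
      have h1 : fL (linearCombination ℝ* wL ψ) = 0 := hfL' (hSmem q)
      rw [hfLx] at h1
      have h2 : ∑ i, (t * g i) * linearCombination ℝ* wL ψ i =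
          t * ∑ i, linearCombination ℝ* wL ψ i * g i := by
        rw [Finset.mul_sum]
        exact Finset.sum_congr rfl fun i _ => by ring
      rw [h2, h1, mul_zero]
    have e3 := congrArg stdPart e2
    rw [st_sum _ _ (fun i hi => Fi_mul (htF i hi) (hX i)), stdPart_zero] at e3
    rw [← e3]
    refine Finset.sum_congr rfl fun i hi => ?_
    rw [stdPart_mul (htF i hi) (hX i), e1]


/-! ## The infinitesimal perturbation -/

lemma red_add {φ ψ : ℤ →₀ ℝ*} (h : FF φ) (h' : FF ψ) : red (φ + ψ) = red φ + red ψ := by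
  ext l
  rw [red_apply, Finsupp.add_apply, Finsupp.add_apply, stdPart_add (h l) (h' l)]
  rfl

lemma red_neg (φ : ℤ →₀ ℝ*) : red (-φ) = - red φ := by
  ext l
  rw [red_apply, Finsupp.neg_apply, Finsupp.neg_apply, stdPart_neg]
  rfl

lemma red_single (l : ℤ) (x : ℝ*) : red (single l x) = single l (stdPart x) := by
  unfold red
  rw [Finsupp.mapRange_single]

lemma FF_single (l : ℤ) {x : ℝ*} (hx : Fi x) : FF (single l x) := by
  intro m
  rw [Finsupp.single_apply]
  split_ifs
  · exact hx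
  · exact Fi_zero

lemma FF_add {φ ψ : ℤ →₀ ℝ*} (h : FF φ) (h' : FF ψ) : FF (φ + ψ) := fun l => by
  rw [Finsupp.add_apply]; exact Fi_add (h l) (h' l)

/-- the real data of a polygon: `Pt i = a_i v_{i-1} + b_i v_i + c_i v_{i+1}` and the two
expressions for the vertex `F(A)_j` of the first iterate -/
structure Geo (a b c X Y U W5 Z : ℤ → ℝ) (v Pt : ℤ → V) : Prop where
  per : ∀ i, Pt (i + 2) = Pt i
  rel : ∀ i, Pt i = a i • v (i - 1) + b i • v i + c i • v (i + 1)
  rel5 : ∀ j, X j • v (j - 1) + Y j • v (j + 1) = U j • v (j - 2) + W5 j • v j + Z j • v (j + 2)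
  ne5 : ∀ j, X j ≠ 0 ∨ Y j ≠ 0
  vx : ∀ j, b (j - 1) = 0 → b (j + 1) = 0 → a (j - 1) = 0 ∧ c (j + 1) = 0 ∧ a (j + 1) = c (j - 1)
  vx2 : ∀ j, b (j - 1) = 0 → b (j + 1) = 0 → b (j + 3) = 0 → False
  nvx : ∀ j, b (j - 1) = 0 → a (j - 1) = 0 → b (j + 1) = 0

/-- a nonzero hyperreal infinitely close to `r` -/
noncomputable def nz (r : ℝ) : ℝ* := open Classical in if r = 0 then Hyperreal.epsilon else (r : ℝ*)

lemma Fi_eps : Fi Hyperreal.epsilon := Hyperreal.archimedeanClassMk_epsilon_pos.le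

lemma nz_ne (r : ℝ) : nz r ≠ 0 := by
  unfold nz
  split_ifs with h
  · exact Hyperreal.epsilon_ne_zero
  · exact Hyperreal.coe_ne_zero.mpr h

lemma nz_fin (r : ℝ) : Fi (nz r) := by
  unfold nz
  split_ifs with h
  · exact Fi_eps
  · exact Fi_coe r

lemma nz_st (r : ℝ) : stdPart (nz r) = r := by
  unfold nz
  split_ifs with h
  · rw [h]; exact Hyperreal.stdPart_epsilon
  · exact Hyperreal.stdPart_coe r

/-- perturbed `b` -/
noncomputable def bp (b X Y : ℤ → ℝ) (l : ℤ) : ℝ* := open Classical in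
  if b l ≠ 0 then (b l : ℝ*) else
    if b (l + 2) = 0 then Hyperreal.epsilon * nz (X (l + 1)) else
      if b (l - 2) = 0 then -(Hyperreal.epsilon * nz (Y (l - 1))) else Hyperreal.epsilon

/-- perturbed `a` -/
noncomputable def ap (a b U W5 : ℤ → ℝ) (l : ℤ) : ℝ* := open Classical in
  if b l = 0 ∧ b (l + 2) = 0 then -(Hyperreal.epsilon * (U (l + 1) : ℝ*)) else
    if b (l - 2) = 0 ∧ b l = 0 then (a l : ℝ*) + Hyperreal.epsilon * (W5 (l - 1) : ℝ*) else (a l : ℝ*)

/-- perturbed `c` -/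
noncomputable def cp (b c Z : ℤ → ℝ) (l : ℤ) : ℝ* := open Classical in
  if b (l - 2) = 0 ∧ b l = 0 then Hyperreal.epsilon * (Z (l - 1) : ℝ*) else (c l : ℝ*)

lemma st_eps_mul {x : ℝ*} (hx : Fi x) : stdPart (Hyperreal.epsilon * x) = 0 := by
  rw [stdPart_mul Fi_eps hx, Hyperreal.stdPart_epsilon, zero_mul]

lemma bp_ne (b X Y : ℤ → ℝ) (l : ℤ) : bp b X Y l ≠ 0 := by
  unfold bp
  split_ifs with h1 h2 h3
  · exact Hyperreal.coe_ne_zero.mpr h1
  · exact mul_ne_zero Hyperreal.epsilon_ne_zero (nz_ne _)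
  · exact neg_ne_zero.mpr (mul_ne_zero Hyperreal.epsilon_ne_zero (nz_ne _))
  · exact Hyperreal.epsilon_ne_zero

lemma bp_fin (b X Y : ℤ → ℝ) (l : ℤ) : Fi (bp b X Y l) ∧ stdPart (bp b X Y l) = b l := by
  unfold bp
  split_ifs with h1 h2 h3
  · exact ⟨Fi_coe _, Hyperreal.stdPart_coe _⟩
  · have h1' : b l = 0 := by simpa using h1
    exact ⟨Fi_mul Fi_eps (nz_fin _), by rw [st_eps_mul (nz_fin _), h1']⟩
  · have h1' : b l = 0 := by simpa using h1
    exact ⟨Fi_neg (Fi_mul Fi_eps (nz_fin _)), by rw [stdPart_neg, st_eps_mul (nz_fin _), h1', neg_zero]⟩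
  · have h1' : b l = 0 := by simpa using h1
    exact ⟨Fi_eps, by rw [Hyperreal.stdPart_epsilon, h1']⟩

lemma ap_fin {a b c X Y U W5 Z : ℤ → ℝ} {v Pt : ℤ → V} (G : Geo a b c X Y U W5 Z v Pt) (l : ℤ) :
    Fi (ap a b U W5 l) ∧ stdPart (ap a b U W5 l) = a l := by
  unfold ap
  split_ifs with h1 h2
  · have h3 := (G.vx (l + 1) (by rw [add_sub_cancel_right]; exact h1.1)
      (by rw [show l + 1 + 1 = l + 2 by ring]; exact h1.2)).1
    rw [add_sub_cancel_right] at h3
    exact ⟨Fi_neg (Fi_mul Fi_eps (Fi_coe _)), by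
      rw [stdPart_neg, st_eps_mul (Fi_coe _), h3, neg_zero]⟩
  · exact ⟨Fi_add (Fi_coe _) (Fi_mul Fi_eps (Fi_coe _)), by
      rw [stdPart_add (Fi_coe _) (Fi_mul Fi_eps (Fi_coe _)), st_eps_mul (Fi_coe _), add_zero]
      exact Hyperreal.stdPart_coe _⟩
  · exact ⟨Fi_coe _, Hyperreal.stdPart_coe _⟩

lemma cp_fin {a b c X Y U W5 Z : ℤ → ℝ} {v Pt : ℤ → V} (G : Geo a b c X Y U W5 Z v Pt) (l : ℤ) :
    Fi (cp b c Z l) ∧ stdPart (cp b c Z l) = c l := by
  unfold cp
  split_ifs with h1
  · have h3 := (G.vx (l - 1) (by rw [show l - 1 - 1 = l - 2 by ring]; exact h1.1)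
      (by rw [sub_add_cancel]; exact h1.2)).2.1
    rw [sub_add_cancel] at h3
    exact ⟨Fi_mul Fi_eps (Fi_coe _), by rw [st_eps_mul (Fi_coe _), h3]⟩
  · exact ⟨Fi_coe _, Hyperreal.stdPart_coe _⟩

/-- the normalised elementary relations -/
lemma loc {a b c X Y U W5 Z : ℤ → ℝ} {v Pt : ℤ → V} (G : Geo a b c X Y U W5 Z v Pt) (j : ℤ) :
    ∃ κ x1 x2 x3 x4 x5 : ℝ*, κ ≠ 0 ∧ bp b X Y (j - 1) = κ * x1 ∧ - bp b X Y (j + 1) = κ * x2 ∧
      - ap a b U W5 (j - 1) = κ * x3 ∧ ap a b U W5 (j + 1) - cp b c Z (j - 1) = κ * x4 ∧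
      cp b c Z (j + 1) = κ * x5 ∧ Fi x1 ∧ Fi x2 ∧ Fi x3 ∧ Fi x4 ∧ Fi x5 ∧
      stdPart x1 • v (j - 1) + stdPart x2 • v (j + 1) =
        stdPart x3 • v (j - 2) + stdPart x4 • v j + stdPart x5 • v (j + 2) ∧
      ((b (j - 1) = 0 ∧ b (j + 1) = 0) → (stdPart x1 ≠ 0 ∨ stdPart x2 ≠ 0)) ∧
      (¬ (b (j - 1) = 0 ∧ b (j + 1) = 0) →
        stdPart x1 = b (j - 1) ∧ stdPart x2 = - b (j + 1) ∧ stdPart x3 = - a (j - 1)) := by
  by_cases h : b (j - 1) = 0 ∧ b (j + 1) = 0
  · obtain ⟨h1, h2⟩ := h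
    have e1 : j - 1 + 2 = j + 1 := by ring
    have e2 : j + 1 - 2 = j - 1 := by ring
    have e3 : j + 1 + 2 = j + 3 := by ring
    have e4 : j - 1 - 2 = j - 3 := by ring
    have h3 : b (j + 3) ≠ 0 := fun h3 => G.vx2 j h1 h2 h3
    have h4 : b (j - 3) ≠ 0 := fun h4 => G.vx2 (j - 2)
      (by rw [show j - 2 - 1 = j - 3 by ring]; exact h4)
      (by rw [show j - 2 + 1 = j - 1 by ring]; exact h1)
      (by rw [show j - 2 + 3 = j + 1 by ring]; exact h2)
    obtain ⟨g1, g2, g3⟩ := G.vx j h1 h2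
    refine ⟨Hyperreal.epsilon, nz (X j), nz (Y j), (U j : ℝ*), (W5 j : ℝ*), (Z j : ℝ*),
      Hyperreal.epsilon_ne_zero, ?_, ?_, ?_, ?_, ?_, nz_fin _, nz_fin _, Fi_coe _, Fi_coe _,
      Fi_coe _, ?_, ?_, ?_⟩
    · simp [bp, h1, e1, h2]
    · simp [bp, h2, e3, h3, e2, h1]
    · simp [ap, h1, e1, h2]
    · simp [ap, cp, h1, h2, e2, e3, e4, h3, h4, g3]
    · simp [cp, h1, h2, e2]
    · rw [nz_st, nz_st, Hyperreal.stdPart_coe, Hyperreal.stdPart_coe, Hyperreal.stdPart_coe]
      exact G.rel5 j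
    · intro _
      rw [nz_st, nz_st]
      exact G.ne5 j
    · intro hcon
      exact absurd ⟨h1, h2⟩ hcon
  · have q1 := bp_fin b X Y (j - 1)
    have q2 := bp_fin b X Y (j + 1)
    have q3 := ap_fin G (j - 1)
    have q4 := ap_fin G (j + 1)
    have q5 := cp_fin G (j - 1)
    have q6 := cp_fin G (j + 1)
    refine ⟨1, bp b X Y (j - 1), - bp b X Y (j + 1), - ap a b U W5 (j - 1),
      ap a b U W5 (j + 1) - cp b c Z (j - 1), cp b c Z (j + 1), one_ne_zero, by ring, by ring,
      by ring, by ring, by ring, q1.1, Fi_neg q2.1, Fi_neg q3.1, ?_, q6.1, ?_, ?_, ?_⟩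
    · rw [sub_eq_add_neg]; exact Fi_add q4.1 (Fi_neg q5.1)
    · rw [stdPart_neg, stdPart_neg, stdPart_sub q4.1 q5.1, q1.2, q2.2, q3.2, q4.2, q5.2, q6.2]
      have r1 := G.rel (j - 1)
      have r2 := G.rel (j + 1)
      rw [show j + 1 = (j - 1) + 2 by ring, G.per, r1] at r2
      rw [show j - 1 - 1 = j - 2 by ring, show j - 1 + 1 = j by ring,
        show j - 1 + 2 - 1 = j by ring, show j - 1 + 2 + 1 = j + 2 by ring,
        show j - 1 + 2 = j + 1 by ring] at r2
      linear_combination (norm := module) r2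
    · intro hcon; exact absurd hcon h
    · intro _
      refine ⟨q1.2, ?_, ?_⟩
      · rw [stdPart_neg, q2.2]
      · rw [stdPart_neg, q3.2]

lemma indep_aux {y1 y2 y3 y4 y5 : ℤ → ℝ}
    (hy : ∀ j, y1 j ≠ 0 ∨ y3 j ≠ 0 ∨ (y2 j ≠ 0 ∧ y1 (j + 2) = 0)) (i : ℤ) (m : ℕ) (g : ℕ → ℝ)
    (h : ∑ s ∈ Finset.range m, g s • ((single (i + 1 + 2 * (s : ℤ) - 1) (y1 (i + 1 + 2 * s)) +
      single (i + 1 + 2 * (s : ℤ) + 1) (y2 (i + 1 + 2 * s))) +
      (single (i + 1 + 2 * (s : ℤ) - 2) (y3 (i + 1 + 2 * s)) +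
      single (i + 1 + 2 * (s : ℤ)) (y4 (i + 1 + 2 * s)) +
      single (i + 1 + 2 * (s : ℤ) + 2) (y5 (i + 1 + 2 * s))) : ℤ →₀ ℝ) = 0) :
    ∀ s < m, g s = 0 := by
  intro s
  induction s using Nat.strong_induction_on with
  | _ s ih =>
    intro hs
    have hev : ∀ l : ℤ, ∑ t ∈ Finset.range m, g t * (((if i + 1 + 2 * (t : ℤ) - 1 = l then
        y1 (i + 1 + 2 * t) else 0) + (if i + 1 + 2 * (t : ℤ) + 1 = l then y2 (i + 1 + 2 * t) else 0)) +
        ((if i + 1 + 2 * (t : ℤ) - 2 = l then y3 (i + 1 + 2 * t) else 0) +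
        (if i + 1 + 2 * (t : ℤ) = l then y4 (i + 1 + 2 * t) else 0) +
        (if i + 1 + 2 * (t : ℤ) + 2 = l then y5 (i + 1 + 2 * t) else 0))) = 0 := by
      intro l
      have h1 := DFunLike.congr_fun h l
      rw [Finsupp.finsetSum_apply] at h1
      refine Eq.trans (Finset.sum_congr rfl fun t _ => ?_) h1
      simp only [Finsupp.smul_apply, Finsupp.add_apply, Finsupp.single_apply, smul_eq_mul]
    rcases hy (i + 1 + 2 * s) with h1 | h1 | ⟨h1, h2⟩
    · have h3 := hev (i + 1 + 2 * s - 1)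
      rw [Finset.sum_eq_single_of_mem s (Finset.mem_range.mpr hs)] at h3
      · have q1 : ¬ (i + 1 + 2 * (s : ℤ) + 1 = i + 1 + 2 * s - 1) := by omega
        have q2 : ¬ (i + 1 + 2 * (s : ℤ) - 2 = i + 1 + 2 * s - 1) := by omega
        have q3 : ¬ (i + 1 + 2 * (s : ℤ) = i + 1 + 2 * s - 1) := by omega
        have q4 : ¬ (i + 1 + 2 * (s : ℤ) + 2 = i + 1 + 2 * s - 1) := by omega
        rw [if_pos rfl, if_neg q1, if_neg q2, if_neg q3, if_neg q4] at h3
        simpa [h1] using h3
      · intro t ht hts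
        rcases lt_or_gt_of_ne hts with h4 | h4
        · rw [ih t h4 (by omega), zero_mul]
        · have q0 : ¬ (i + 1 + 2 * (t : ℤ) - 1 = i + 1 + 2 * s - 1) := by omega
          have q1 : ¬ (i + 1 + 2 * (t : ℤ) + 1 = i + 1 + 2 * s - 1) := by omega
          have q2 : ¬ (i + 1 + 2 * (t : ℤ) - 2 = i + 1 + 2 * s - 1) := by omega
          have q3 : ¬ (i + 1 + 2 * (t : ℤ) = i + 1 + 2 * s - 1) := by omega
          have q4 : ¬ (i + 1 + 2 * (t : ℤ) + 2 = i + 1 + 2 * s - 1) := by omega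
          rw [if_neg q0, if_neg q1, if_neg q2, if_neg q3, if_neg q4]
          simp
    · have h3 := hev (i + 1 + 2 * s - 2)
      rw [Finset.sum_eq_single_of_mem s (Finset.mem_range.mpr hs)] at h3
      · have q0 : ¬ (i + 1 + 2 * (s : ℤ) - 1 = i + 1 + 2 * s - 2) := by omega
        have q1 : ¬ (i + 1 + 2 * (s : ℤ) + 1 = i + 1 + 2 * s - 2) := by omega
        have q3 : ¬ (i + 1 + 2 * (s : ℤ) = i + 1 + 2 * s - 2) := by omega
        have q4 : ¬ (i + 1 + 2 * (s : ℤ) + 2 = i + 1 + 2 * s - 2) := by omega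
        rw [if_neg q0, if_neg q1, if_pos rfl, if_neg q3, if_neg q4] at h3
        simpa [h1] using h3
      · intro t ht hts
        rcases lt_or_gt_of_ne hts with h4 | h4
        · rw [ih t h4 (by omega), zero_mul]
        · have q0 : ¬ (i + 1 + 2 * (t : ℤ) - 1 = i + 1 + 2 * s - 2) := by omega
          have q1 : ¬ (i + 1 + 2 * (t : ℤ) + 1 = i + 1 + 2 * s - 2) := by omega
          have q2 : ¬ (i + 1 + 2 * (t : ℤ) - 2 = i + 1 + 2 * s - 2) := by omega
          have q3 : ¬ (i + 1 + 2 * (t : ℤ) = i + 1 + 2 * s - 2) := by omega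
          have q4 : ¬ (i + 1 + 2 * (t : ℤ) + 2 = i + 1 + 2 * s - 2) := by omega
          rw [if_neg q0, if_neg q1, if_neg q2, if_neg q3, if_neg q4]
          simp
    · have h3 := hev (i + 1 + 2 * s + 1)
      rw [Finset.sum_eq_single_of_mem s (Finset.mem_range.mpr hs)] at h3
      · have q0 : ¬ (i + 1 + 2 * (s : ℤ) - 1 = i + 1 + 2 * s + 1) := by omega
        have q2 : ¬ (i + 1 + 2 * (s : ℤ) - 2 = i + 1 + 2 * s + 1) := by omega
        have q3 : ¬ (i + 1 + 2 * (s : ℤ) = i + 1 + 2 * s + 1) := by omega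
        have q4 : ¬ (i + 1 + 2 * (s : ℤ) + 2 = i + 1 + 2 * s + 1) := by omega
        rw [if_neg q0, if_pos rfl, if_neg q2, if_neg q3, if_neg q4] at h3
        simpa [h1] using h3
      · intro t ht hts
        rcases lt_or_gt_of_ne hts with h4 | h4
        · rw [ih t h4 (by omega), zero_mul]
        · have q1 : ¬ (i + 1 + 2 * (t : ℤ) + 1 = i + 1 + 2 * s + 1) := by omega
          have q2 : ¬ (i + 1 + 2 * (t : ℤ) - 2 = i + 1 + 2 * s + 1) := by omega
          have q3 : ¬ (i + 1 + 2 * (t : ℤ) = i + 1 + 2 * s + 1) := by omega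
          have q4 : ¬ (i + 1 + 2 * (t : ℤ) + 2 = i + 1 + 2 * s + 1) := by omega
          rw [if_neg q1, if_neg q2, if_neg q3, if_neg q4]
          split_ifs with q5
          · rw [show i + 1 + 2 * (t : ℤ) = i + 1 + 2 * s + 2 by omega, h2]
            simp
          · simp

/-- a functional annihilating `E_0` is a combination of elementary ones -/
lemma decomp {K : Type*} [Field K] {e a c : ℤ → K} {P : ℤ → (ℤ →₀ K)} {x1 x2 : ℤ → K}
    (hP : ∀ j, P j = single (j - 1) (x1 j) + single (j + 1) (x2 j)) (h1 : ∀ j, x1 j ≠ 0)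
    (he : ∀ l, e l ≠ 0)
    (hPe : ∀ j, x1 j * e (j - 1) + x2 j * e (j + 1) = 0) (m : ℕ) :
    ∀ (i : ℤ) (ψ : ℤ →₀ K), InAnn e a c 1 i m ψ →
      ∃ μ : ℕ → K, ψ = ∑ s ∈ Finset.range m, μ s • P (i + 1 + 2 * s) := by
  induction m with
  | zero =>
    intro i ψ hψ
    refine ⟨0, ?_⟩
    rw [Finset.range_zero, Finset.sum_empty]
    have h2 : ψ = single i (ψ i) := by
      ext l
      by_cases hl : l = i
      · subst hl; simp
      · have h1 : ψ l = 0 := by
          by_contra hne
          obtain ⟨s, hs, hl'⟩ := (mem_supported K ψ).mp hψ.1 (mem_support_iff.mpr hne)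
          apply hl
          have : s = 0 := by omega
          subst this
          simpa using hl'
        rw [h1]
        simp [Ne.symm hl]
    have h3 := hψ.2 0 (by omega)
    rw [h2, linearCombination_single, smul_eq_mul] at h3
    have h4 : ψ i = 0 := (mul_eq_zero.mp h3).resolve_right (he i)
    rw [h2, h4, single_zero]
  | succ m ih =>
    intro i ψ hψ
    set t := ψ i / x1 (i + 1) with ht
    have hi1 : i + 1 - 1 = i := by ring
    have hPin : InAnn e a c 1 i (m + 1) (P (i + 1)) := by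
      constructor
      · rw [hP, hi1]
        refine Submodule.add_mem _ (single_mem_supported K _ ⟨0, by omega, by simp⟩)
          (single_mem_supported K _ ⟨1, by omega, by push_cast; ring⟩)
      · intro r hr
        obtain rfl : r = 0 := by omega
        rw [hP, map_add, linearCombination_single, linearCombination_single]
        exact hPe (i + 1)
    have h3 : InAnn e a c 1 i (m + 1) ((1 : K) • ψ + (-t) • P (i + 1)) := hψ.comb hPin 1 (-t)
    have h4 : ((1 : K) • ψ + (-t) • P (i + 1)) i = 0 := by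
      rw [hP, hi1]
      have q : ¬ (i + 1 + 1 = i) := by omega
      simp only [Finsupp.add_apply, Finsupp.smul_apply, Finsupp.single_apply, smul_eq_mul, q,
        if_true, if_false, ht]
      have := h1 (i + 1)
      field_simp
      ring
    have h5 := peel h3.1 h4 m (by omega)
    obtain ⟨μ, hμ⟩ := ih (i + 2) _ ⟨h5, h3.2⟩
    refine ⟨fun s => if s = 0 then t else μ (s - 1), ?_⟩
    rw [Finset.sum_range_succ']
    simp only [Nat.add_eq_zero_iff, one_ne_zero, and_false, if_false, Nat.add_sub_cancel, if_true,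
      Nat.cast_zero, mul_zero, add_zero]
    have h6 : ∑ s ∈ Finset.range m, μ s • P (i + 1 + 2 * ((s + 1 : ℕ) : ℤ)) =
        ∑ s ∈ Finset.range m, μ s • P (i + 2 + 1 + 2 * (s : ℤ)) := by
      refine Finset.sum_congr rfl fun s _ => ?_
      congr 2
      push_cast; ring
    rw [h6, ← hμ]
    simp

theorem shift {a b c X Y U W5 Z : ℤ → ℝ} {v Pt : ℤ → V} (G : Geo a b c X Y U W5 Z v Pt) :
    Shift (fun l => (bp b X Y l)⁻¹) (fun l => ap a b U W5 l / bp b X Y l)
      (fun l => cp b c Z l / bp b X Y l) v := by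
  intro i m ψ hψ hF hF'
  choose κ x1 x2 x3 x4 x5 hκ k1 k2 k3 k4 k5 F1 F2 F3 F4 F5 R N1 N2 using loc G
  set T := Ts (fun l => ap a b U W5 l / bp b X Y l) (fun l => cp b c Z l / bp b X Y l) with hT
  set P : ℤ → (ℤ →₀ ℝ*) := fun j => single (j - 1) (x1 j) + single (j + 1) (x2 j) with hP
  set Q : ℤ → (ℤ →₀ ℝ*) := fun j => single (j - 2) (x3 j) + single j (x4 j) +
    single (j + 2) (x5 j) with hQ
  have hb : ∀ l, bp b X Y l ≠ 0 := bp_ne b X Y
  have hx1 : ∀ j, x1 j ≠ 0 := by
    intro j h0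
    apply hb (j - 1)
    rw [k1, h0, mul_zero]
  obtain ⟨μ, hμ⟩ := decomp (P := P) (fun j => rfl) hx1 (fun l => inv_ne_zero (hb l)) (by
    intro j
    have e1 : x1 j = bp b X Y (j - 1) / κ j := by rw [k1]; field_simp [hκ j]
    have e2 : x2 j = - bp b X Y (j + 1) / κ j := by rw [k2]; field_simp [hκ j]
    rw [e1, e2]
    have := hb (j - 1)
    have := hb (j + 1)
    have := hκ j
    field_simp
    ring) m i ψ hψ
  have hTP : ∀ j, T (P j) = - Q j := by
    intro j
    have e1 : x1 j = bp b X Y (j - 1) / κ j := by rw [k1]; field_simp [hκ j]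
    have e2 : x2 j = - bp b X Y (j + 1) / κ j := by rw [k2]; field_simp [hκ j]
    have e3 : x3 j = - ap a b U W5 (j - 1) / κ j := by rw [k3]; field_simp [hκ j]
    have e4 : x4 j = (ap a b U W5 (j + 1) - cp b c Z (j - 1)) / κ j := by
      rw [k4]; field_simp [hκ j]
    have e5 : x5 j = cp b c Z (j + 1) / κ j := by rw [k5]; field_simp [hκ j]
    have hb1 := hb (j - 1)
    have hb2 := hb (j + 1)
    have hk := hκ j
    simp only [hP, hQ, hT, Ts, map_add, linearCombination_single, smul_add, smul_single,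
      smul_eq_mul]
    rw [show j - 1 - 1 = j - 2 by ring, show j - 1 + 1 = j by ring, show j + 1 - 1 = j by ring,
      show j + 1 + 1 = j + 2 by ring]
    have s1 : x1 j * (ap a b U W5 (j - 1) / bp b X Y (j - 1)) = - x3 j := by
      rw [e1, e3]; field_simp
    have s2 : x1 j * (cp b c Z (j - 1) / bp b X Y (j - 1)) +
        x2 j * (ap a b U W5 (j + 1) / bp b X Y (j + 1)) = - x4 j := by
      rw [e1, e2, e4]; field_simp; ring
    have s3 : x2 j * (cp b c Z (j + 1) / bp b X Y (j + 1)) = - x5 j := by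
      rw [e2, e5]; field_simp
    rw [s1, s3, neg_add, neg_add, ← single_neg, ← single_neg, ← single_neg, ← s2, single_add]
    abel
  have hTψ : T ψ = ∑ s ∈ Finset.range m, (- μ s) • Q (i + 1 + 2 * s) := by
    rw [hμ, map_sum]
    refine Finset.sum_congr rfl fun s _ => ?_
    rw [map_smul, hTP, smul_neg, neg_smul]
  have hPF : ∀ j, FF (P j) := fun j => FF_add (FF_single _ (F1 j)) (FF_single _ (F2 j))
  have hQF : ∀ j, FF (Q j) := fun j => FF_add (FF_add (FF_single _ (F3 j)) (FF_single _ (F4 j)))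
    (FF_single _ (F5 j))
  have hredP : ∀ j, red (P j) = single (j - 1) (stdPart (x1 j)) + single (j + 1) (stdPart (x2 j)) := by
    intro j
    rw [hP, red_add (FF_single _ (F1 j)) (FF_single _ (F2 j)), red_single, red_single]
  have hredQ : ∀ j, red (Q j) = single (j - 2) (stdPart (x3 j)) + single j (stdPart (x4 j)) +
      single (j + 2) (stdPart (x5 j)) := by
    intro j
    rw [hQ, red_add (FF_add (FF_single _ (F3 j)) (FF_single _ (F4 j))) (FF_single _ (F5 j)),
      red_add (FF_single _ (F3 j)) (FF_single _ (F4 j)), red_single, red_single, red_single]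
  have hμF : ∀ s < m, Fi (μ s) := by
    have h1 := fin_coeff (w := fun l => single l (1 : ℝ)) (ι := Fin m)
      (f := fun s => P (i + 1 + 2 * ((s : ℕ) : ℤ)) + Q (i + 1 + 2 * ((s : ℕ) : ℤ)))
      (x := fun s => μ s) (fun s => FF_add (hPF _) (hQF _)) (by
        rw [Fintype.linearIndependent_iff]
        intro g hg s
        have h2 := indep_aux (y1 := fun j => stdPart (x1 j)) (y2 := fun j => stdPart (x2 j))
          (y3 := fun j => stdPart (x3 j)) (y4 := fun j => stdPart (x4 j))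
          (y5 := fun j => stdPart (x5 j)) (by
            intro j
            by_cases h : b (j - 1) = 0 ∧ b (j + 1) = 0
            · rcases N1 j h with h' | h'
              · exact Or.inl h'
              · refine Or.inr (Or.inr ⟨h', ?_⟩)
                have h3 : ¬ (b (j + 2 - 1) = 0 ∧ b (j + 2 + 1) = 0) := by
                  rintro ⟨-, h4⟩
                  rw [show j + 2 + 1 = j + 3 by ring] at h4
                  exact G.vx2 j h.1 h.2 h4
                show stdPart (x1 (j + 2)) = 0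
                rw [(N2 (j + 2) h3).1, show j + 2 - 1 = j + 1 by ring]
                exact h.2
            · obtain ⟨g1, g2, g3⟩ := N2 j h
              by_cases h5 : b (j - 1) = 0
              · right; left
                show stdPart (x3 j) ≠ 0
                rw [g3]
                intro h6
                exact h ⟨h5, G.nvx j h5 (neg_eq_zero.mp h6)⟩
              · left
                show stdPart (x1 j) ≠ 0
                rw [g1]; exact h5) i m (fun s => if hs : s < m then g ⟨s, hs⟩ else 0) (by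
            rw [Finset.sum_range]
            rw [← hg]
            refine Finset.sum_congr rfl fun s _ => ?_
            rw [dif_pos s.2]
            congr 1
            have h7 : linearCombination ℝ (fun l : ℤ => single l (1 : ℝ))
                (red (P (i + 1 + 2 * ((s : ℕ) : ℤ)) + Q (i + 1 + 2 * ((s : ℕ) : ℤ)))) =
                red (P (i + 1 + 2 * ((s : ℕ) : ℤ)) + Q (i + 1 + 2 * ((s : ℕ) : ℤ))) := by
              rw [linearCombination_apply]
              conv_rhs => rw [← Finsupp.sum_single (red (P (i + 1 + 2 * ((s : ℕ) : ℤ)) +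
                Q (i + 1 + 2 * ((s : ℕ) : ℤ))))]
              simp
            rw [h7, red_add (hPF _) (hQF _), hredP, hredQ]) s s.2
        simpa using h2) (by
        have h3 : ∑ s : Fin m, μ s • (P (i + 1 + 2 * ((s : ℕ) : ℤ)) +
            Q (i + 1 + 2 * ((s : ℕ) : ℤ))) = ψ + - T ψ := by
          rw [hTψ]
          conv_rhs => rw [hμ]
          rw [← Finset.sum_neg_distrib, ← Finset.sum_add_distrib, Finset.sum_range]
          refine Finset.sum_congr rfl fun s _ => ?_
          rw [smul_add, neg_smul, neg_neg]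
        rw [h3]
        exact FF_add hF (fun l => by rw [Finsupp.neg_apply]; exact Fi_neg (hF' l)))
    intro s hs
    exact h1 ⟨s, hs⟩
  have e1 : red ψ = ∑ s ∈ Finset.range m, stdPart (μ s) • red (P (i + 1 + 2 * s)) := by
    conv_lhs => rw [hμ]
    exact red_sum _ _ _ (fun s hs => hμF s (Finset.mem_range.mp hs)) (fun s _ => hPF _)
  have e2 : red (T ψ) = ∑ s ∈ Finset.range m, stdPart (- μ s) • red (Q (i + 1 + 2 * s)) := by
    rw [hTψ]
    exact red_sum _ _ _ (fun s hs => Fi_neg (hμF s (Finset.mem_range.mp hs))) (fun s _ => hQF _)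
  rw [e1, e2, map_sum, map_sum, ← Finset.sum_neg_distrib]
  refine Finset.sum_congr rfl fun s _ => ?_
  rw [map_smul, map_smul, stdPart_neg, neg_smul, neg_neg, hredP, hredQ]
  congr 1
  simp only [map_add, linearCombination_single]
  exact R (i + 1 + 2 * s)


/-! ## Statement for polygons in projective space -/

open scoped LinearAlgebra.Projectivization

/-- Real projective 3-space. -/
abbrev RP3 := ℙ ℝ (Fin 4 → ℝ)

/-- `B` is the image of `A` under the three-dimensional pentagram map `F`, and `F(A)` is defined: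
for all `i` the points `A_{i-1}, A_{i+1}` span a line, the points `A_{i-2}, A_i, A_{i+2}` span a
plane, and the line and the plane meet exactly in the point `B_i`. (Points of projective space are
lines through the origin of `ℝ⁴`, projective lines and planes are subspaces of dimension two and
three.) -/
def IsF (A B : ℤ → RP3) : Prop := ∀ i : ℤ,
  Module.finrank ℝ ((A (i - 1)).submodule ⊔ (A (i + 1)).submodule : Submodule ℝ _) = 2 ∧
  Module.finrank ℝ ((A (i - 2)).submodule ⊔ (A i).submodule ⊔ (A (i + 2)).submodule :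
    Submodule ℝ _) = 3 ∧
  ((A (i - 1)).submodule ⊔ (A (i + 1)).submodule) ⊓
    ((A (i - 2)).submodule ⊔ (A i).submodule ⊔ (A (i + 2)).submodule) = (B i).submodule

/-- The face `Π_i` of the polygon: the span of three consecutive vertices. -/
noncomputable def face (A : ℤ → RP3) (i : ℤ) : Submodule ℝ (Fin 4 → ℝ) :=
  (A (i - 1)).submodule ⊔ (A i).submodule ⊔ (A (i + 1)).submodule

/-- coefficients of a linear combination of three vectors -/
noncomputable def coef (x y z w : Fin 4 → ℝ) : ℝ × ℝ × ℝ :=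
  open Classical in
  if h : ∃ t : ℝ × ℝ × ℝ, w = t.1 • x + t.2.1 • y + t.2.2 • z then h.choose else 0

lemma coef_spec {x y z w : Fin 4 → ℝ} (h : w ∈ (ℝ ∙ x) ⊔ (ℝ ∙ y) ⊔ (ℝ ∙ z)) :
    w = (coef x y z w).1 • x + (coef x y z w).2.1 • y + (coef x y z w).2.2 • z := by
  have h' : ∃ t : ℝ × ℝ × ℝ, w = t.1 • x + t.2.1 • y + t.2.2 • z := by
    obtain ⟨u, hu, v, hv, huv⟩ := Submodule.mem_sup.mp h
    obtain ⟨u1, hu1, u2, hu2, hu12⟩ := Submodule.mem_sup.mp hu
    obtain ⟨s, rfl⟩ := Submodule.mem_span_singleton.mp hu1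
    obtain ⟨t, rfl⟩ := Submodule.mem_span_singleton.mp hu2
    obtain ⟨r, rfl⟩ := Submodule.mem_span_singleton.mp hv
    exact ⟨(s, t, r), by rw [← huv, ← hu12]⟩
  unfold coef
  rw [dif_pos h']
  exact h'.choose_spec

lemma bp_per {b X Y : ℤ → ℝ} {N : ℤ} (hb : ∀ i, b (i + N) = b i) (hX : ∀ i, X (i + N) = X i)
    (hY : ∀ i, Y (i + N) = Y i) (i : ℤ) : bp b X Y (i + N) = bp b X Y i := by
  unfold bp
  rw [show i + N + 2 = (i + 2) + N by ring, show i + N - 2 = (i - 2) + N by ring,
    show i + N + 1 = (i + 1) + N by ring, show i + N - 1 = (i - 1) + N by ring, hb, hb, hb, hX, hY]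

lemma ap_per {a b U W5 : ℤ → ℝ} {N : ℤ} (ha : ∀ i, a (i + N) = a i) (hb : ∀ i, b (i + N) = b i)
    (hU : ∀ i, U (i + N) = U i) (hW : ∀ i, W5 (i + N) = W5 i) (i : ℤ) :
    ap a b U W5 (i + N) = ap a b U W5 i := by
  unfold ap
  rw [show i + N + 2 = (i + 2) + N by ring, show i + N - 2 = (i - 2) + N by ring,
    show i + N + 1 = (i + 1) + N by ring, show i + N - 1 = (i - 1) + N by ring, hb, hb, hb, hU, hW,
    ha]

lemma cp_per {b c Z : ℤ → ℝ} {N : ℤ} (hb : ∀ i, b (i + N) = b i)
    (hc : ∀ i, c (i + N) = c i) (hZ : ∀ i, Z (i + N) = Z i) (i : ℤ) :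
    cp b c Z (i + N) = cp b c Z i := by
  unfold cp
  rw [show i + N - 2 = (i - 2) + N by ring, show i + N - 1 = (i - 1) + N by ring, hb, hb, hZ, hc]

/-- **Devron property of the three-dimensional pentagram map.** Let `n ≥ 4`, let `A` be a
`2n`-periodic polygon in `RP³` whose faces `Π_i` (spans of `A_{i-1}, A_i, A_{i+1}`) are planes, and
let `P`, `Q` be points such that `P` lies in `Π_i` for even `i` and `Q` lies in `Π_i` for odd `i`.
If `C 0 = A` and `C (k+1) = F (C k)` is defined for all `k < n - 3`, then the odd-indexed vertices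
of `C (n-3) = F^{n-3}(A)` lie in one plane (the kernel of a nonzero linear form), and so do the
even-indexed ones. -/
theorem result : ∀ n : ℕ, 4 ≤ n → ∀ A : ℤ → RP3, (∀ i, A (i + 2 * n) = A i) →
    (∀ i, Module.finrank ℝ (face A i) = 3) →
    ∀ P Q : RP3, (∀ i, Even i → P.submodule ≤ face A i) → (∀ i, Odd i → Q.submodule ≤ face A i) →
    ∀ C : ℕ → ℤ → RP3, C 0 = A → (∀ k < n - 3, IsF (C k) (C (k + 1))) →
    (∃ f : Module.Dual ℝ (Fin 4 → ℝ), f ≠ 0 ∧
      ∀ i, Odd i → (C (n - 3) i).submodule ≤ LinearMap.ker f) ∧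
    (∃ f : Module.Dual ℝ (Fin 4 → ℝ), f ≠ 0 ∧
      ∀ i, Even i → (C (n - 3) i).submodule ≤ LinearMap.ker f) := by
  intro n hn A hAp hface P Q hP hQ C hC0 hC
  classical
  set v : ℤ → (Fin 4 → ℝ) := fun i => (A i).rep with hv
  have hsub : ∀ x : RP3, x.submodule = ℝ ∙ x.rep := fun x => Projectivization.submodule_eq x
  have hsubv : ∀ i, (A i).submodule = ℝ ∙ v i := fun i => hsub _
  set Pt : ℤ → (Fin 4 → ℝ) := fun i => if Even i then P.rep else Q.rep with hPtdef
  have hPt : ∀ i, Pt (i + 2) = Pt i := by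
    intro i
    simp only [hPtdef]
    have : Even (i + 2) ↔ Even i := by
      rw [Int.even_add]; simp
    simp only [this]
  have hPtne : ∀ i, Pt i ≠ 0 := by
    intro i
    simp only [hPtdef]
    split_ifs
    · exact P.rep_nonzero
    · exact Q.rep_nonzero
  have hAp' : ∀ i, A (i + (2 * n : ℕ)) = A i := by
    intro i
    rw [show i + ((2 * n : ℕ) : ℤ) = i + 2 * n by push_cast; ring, hAp]
  have hvp : ∀ i, v (i + (2 * n : ℕ)) = v i := by
    intro i
    simp only [hv]
    rw [hAp']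
  have hPtp : ∀ i, Pt (i + (2 * n : ℕ)) = Pt i := by
    intro i
    have hper : Function.Periodic Pt (2 : ℤ) := hPt
    have h1 := hper.int_mul (n : ℤ) i
    rw [show i + ((2 * n : ℕ) : ℤ) = i + (n : ℤ) * 2 by push_cast; ring]
    exact h1
  set t : ℤ → ℝ × ℝ × ℝ := fun i => coef (v (i - 1)) (v i) (v (i + 1)) (Pt i) with ht
  have htp : ∀ i, t (i + (2 * n : ℕ)) = t i := by
    intro i
    simp only [ht]
    rw [hPtp, hvp, show i + ((2 * n : ℕ) : ℤ) - 1 = (i - 1) + (2 * n : ℕ) by ring, hvp,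
      show i + ((2 * n : ℕ) : ℤ) + 1 = (i + 1) + (2 * n : ℕ) by ring, hvp]
  have hspec : ∀ i, Pt i = (t i).1 • v (i - 1) + (t i).2.1 • v i + (t i).2.2 • v (i + 1) := by
    intro i
    apply coef_spec
    simp only [hPtdef]
    rw [← hsubv, ← hsubv, ← hsubv]
    by_cases hi : Even i
    · rw [if_pos hi]
      have := hP i hi
      rw [hsub P, Submodule.span_singleton_le_iff_mem] at this
      exact this
    · rw [if_neg hi]
      have := hQ i (Int.not_even_iff_odd.mp hi)
      rw [hsub Q, Submodule.span_singleton_le_iff_mem] at this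
      exact this
  -- the first iterate
  have hF0 : IsF A (C 1) := by
    have := hC 0 (by omega)
    rwa [hC0] at this
  set r : ℤ → (Fin 4 → ℝ) := fun j => (C 1 j).rep with hr
  have hrp : ∀ i, r (i + (2 * n : ℕ)) = r i := by
    intro i
    have h1 : C 1 (i + (2 * n : ℕ)) = C 1 i := by
      apply Projectivization.submodule_injective
      rw [← (hF0 i).2.2, ← (hF0 (i + (2 * n : ℕ))).2.2,
        show i + ((2 * n : ℕ) : ℤ) - 1 = (i - 1) + (2 * n : ℕ) by ring, hAp',
        show i + ((2 * n : ℕ) : ℤ) + 1 = (i + 1) + (2 * n : ℕ) by ring, hAp',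
        show i + ((2 * n : ℕ) : ℤ) - 2 = (i - 2) + (2 * n : ℕ) by ring, hAp',
        show i + ((2 * n : ℕ) : ℤ) + 2 = (i + 2) + (2 * n : ℕ) by ring, hAp', hAp']
    simp only [hr, h1]
  have hrmem : ∀ j, r j ∈ ((A (j - 1)).submodule ⊔ (A (j + 1)).submodule) ⊓
      ((A (j - 2)).submodule ⊔ (A j).submodule ⊔ (A (j + 2)).submodule) := by
    intro j
    rw [(hF0 j).2.2, hsub (C 1 j)]
    exact Submodule.mem_span_singleton_self _
  set t2 : ℤ → ℝ × ℝ × ℝ := fun j => coef (v (j - 1)) (v (j + 1)) 0 (r j) with ht2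
  set t3 : ℤ → ℝ × ℝ × ℝ := fun j => coef (v (j - 2)) (v j) (v (j + 2)) (r j) with ht3
  have hs2 : ∀ j, r j = (t2 j).1 • v (j - 1) + (t2 j).2.1 • v (j + 1) := by
    intro j
    have h1 := (hrmem j).1
    rw [hsubv, hsubv] at h1
    have h2 : r j ∈ (ℝ ∙ v (j - 1)) ⊔ (ℝ ∙ v (j + 1)) ⊔ (ℝ ∙ (0 : Fin 4 → ℝ)) :=
      Submodule.mem_sup_left h1
    have h3 := coef_spec h2
    rw [smul_zero, add_zero] at h3
    exact h3
  have hs3 : ∀ j, r j = (t3 j).1 • v (j - 2) + (t3 j).2.1 • v j + (t3 j).2.2 • v (j + 2) := by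
    intro j
    have h1 := (hrmem j).2
    rw [hsubv, hsubv, hsubv] at h1
    exact coef_spec h1
  have ht2p : ∀ i, t2 (i + (2 * n : ℕ)) = t2 i := by
    intro i
    simp only [ht2]
    rw [hrp, show i + ((2 * n : ℕ) : ℤ) - 1 = (i - 1) + (2 * n : ℕ) by ring, hvp,
      show i + ((2 * n : ℕ) : ℤ) + 1 = (i + 1) + (2 * n : ℕ) by ring, hvp]
  have ht3p : ∀ i, t3 (i + (2 * n : ℕ)) = t3 i := by
    intro i
    simp only [ht3]
    rw [hrp, hvp, show i + ((2 * n : ℕ) : ℤ) - 2 = (i - 2) + (2 * n : ℕ) by ring, hvp,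
      show i + ((2 * n : ℕ) : ℤ) + 2 = (i + 2) + (2 * n : ℕ) by ring, hvp]
  have hvx : ∀ j, (t (j - 1)).2.1 = 0 → (t (j + 1)).2.1 = 0 →
      (t (j - 1)).1 = 0 ∧ (t (j + 1)).2.2 = 0 ∧ (t (j + 1)).1 = (t (j - 1)).2.2 := by
    intro j hb1 hb2
    have r1 := hspec (j - 1)
    have r2 := hspec (j + 1)
    rw [hb1, zero_smul, add_zero, show j - 1 - 1 = j - 2 by ring,
      show j - 1 + 1 = j by ring] at r1
    rw [hb2, zero_smul, add_zero, show j + 1 - 1 = j by ring, show j + 1 + 1 = j + 2 by ring] at r2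
    have hPj : Pt (j + 1) = Pt (j - 1) := by
      rw [show j + 1 = (j - 1) + 2 by ring, hPt]
    rw [hPj, r1] at r2
    have h3 := (hF0 j).2.1
    rw [hsubv, hsubv, hsubv] at h3
    have h4 := triple_indep h3
    have h5 := Fintype.linearIndependent_iff.mp h4
      (![(t (j - 1)).1, (t (j - 1)).2.2 - (t (j + 1)).1, - (t (j + 1)).2.2]) (by
        rw [Fin.sum_univ_three]
        simp only [Matrix.cons_val_zero, Matrix.cons_val_one, Matrix.cons_val]
        linear_combination (norm := module) r2)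
    have h6 : (t (j - 1)).1 = 0 := h5 0
    have h7 : (t (j - 1)).2.2 - (t (j + 1)).1 = 0 := h5 1
    have h8 : - (t (j + 1)).2.2 = 0 := h5 2
    exact ⟨h6, neg_eq_zero.mp h8, (sub_eq_zero.mp h7).symm⟩
  have G : Geo (fun i => (t i).1) (fun i => (t i).2.1) (fun i => (t i).2.2) (fun i => (t2 i).1)
      (fun i => (t2 i).2.1) (fun i => (t3 i).1) (fun i => (t3 i).2.1) (fun i => (t3 i).2.2)
      v Pt := by
    refine ⟨hPt, hspec, ?_, ?_, hvx, ?_, ?_⟩
    · intro j
      exact (hs2 j).symm.trans (hs3 j)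
    · intro j
      by_contra hcon
      push Not at hcon
      have h1 := hs2 j
      rw [hcon.1, hcon.2, zero_smul, zero_smul, add_zero] at h1
      exact (C 1 j).rep_nonzero h1
    · intro j h1 h2 h3
      have g1 := (hvx j h1 h2).2.1
      have g2 := (hvx (j + 2) (by rw [show j + 2 - 1 = j + 1 by ring]; exact h2)
        (by rw [show j + 2 + 1 = j + 3 by ring]; exact h3)).1
      rw [show j + 2 - 1 = j + 1 by ring] at g2
      have g3 := hspec (j + 1)
      rw [g1, g2, h2, zero_smul, zero_smul, zero_smul, add_zero, add_zero] at g3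
      exact hPtne _ g3
    · intro j h1 h2
      have r1 := hspec (j - 1)
      have r2 := hspec (j + 1)
      rw [h1, h2, zero_smul, zero_smul, add_zero, zero_add, show j - 1 + 1 = j by ring] at r1
      have hPj : Pt (j + 1) = Pt (j - 1) := by
        rw [show j + 1 = (j - 1) + 2 by ring, hPt]
      rw [hPj, r1, show j + 1 - 1 = j by ring] at r2
      have h3 := hface (j + 1)
      unfold face at h3
      rw [hsubv, hsubv, hsubv, show j + 1 - 1 = j by ring] at h3
      have h4 := triple_indep h3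
      have h5 := Fintype.linearIndependent_iff.mp h4
        (![(t (j + 1)).1 - (t (j - 1)).2.2, (t (j + 1)).2.1, (t (j + 1)).2.2]) (by
          rw [Fin.sum_univ_three]
          simp only [Matrix.cons_val_zero, Matrix.cons_val_one, Matrix.cons_val]
          linear_combination (norm := module) -r2)
      exact h5 1
  have hbper : ∀ i, bp (fun i => (t i).2.1) (fun i => (t2 i).1) (fun i => (t2 i).2.1)
      (i + (2 * n : ℕ)) = bp (fun i => (t i).2.1) (fun i => (t2 i).1) (fun i => (t2 i).2.1) i :=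
    bp_per (fun i => by simp only [htp]) (fun i => by simp only [ht2p])
      (fun i => by simp only [ht2p])
  have haper : ∀ i, ap (fun i => (t i).1) (fun i => (t i).2.1) (fun i => (t3 i).1)
      (fun i => (t3 i).2.1) (i + (2 * n : ℕ)) = ap (fun i => (t i).1) (fun i => (t i).2.1)
      (fun i => (t3 i).1) (fun i => (t3 i).2.1) i :=
    ap_per (fun i => by simp only [htp]) (fun i => by simp only [htp])
      (fun i => by simp only [ht3p]) (fun i => by simp only [ht3p])
  have hcper : ∀ i, cp (fun i => (t i).2.1) (fun i => (t i).2.2) (fun i => (t3 i).2.2)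
      (i + (2 * n : ℕ)) = cp (fun i => (t i).2.1) (fun i => (t i).2.2) (fun i => (t3 i).2.2) i :=
    cp_per (fun i => by simp only [htp]) (fun i => by simp only [htp])
      (fun i => by simp only [ht3p])
  have hplane : ∀ p : ℤ, ∃ f : Module.Dual ℝ (Fin 4 → ℝ), f ≠ 0 ∧
      ∀ q : ℤ, (C (n - 3) (p + 2 * q)).submodule ≤ LinearMap.ker f := by
    intro p
    refine core_main hn (shift G) hvp (fun i => ?_) (fun i => ?_) (fun i => ?_)
      (C := fun k i => (C k i).submodule) ?_ ?_ p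
    · show (bp _ _ _ (i + (2 * n : ℕ)))⁻¹ = (bp _ _ _ i)⁻¹
      rw [hbper]
    · show ap _ _ _ _ (i + (2 * n : ℕ)) / bp _ _ _ (i + (2 * n : ℕ)) = ap _ _ _ _ i / bp _ _ _ i
      rw [hbper, haper]
    · show cp _ _ _ (i + (2 * n : ℕ)) / bp _ _ _ (i + (2 * n : ℕ)) = cp _ _ _ i / bp _ _ _ i
      rw [hbper, hcper]
    · intro i
      simp only [hC0]
      rw [hsubv]
    · intro k hk i
      have h := hC k hk i
      exact ⟨h.1, h.2.1, h.2.2, Projectivization.finrank_submodule _⟩
  constructor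
  · obtain ⟨f, hf, hf'⟩ := hplane 1
    refine ⟨f, hf, ?_⟩
    rintro i ⟨q, rfl⟩
    rw [add_comm]
    exact hf' q
  · obtain ⟨f, hf, hf'⟩ := hplane 0
    refine ⟨f, hf, ?_⟩
    rintro i ⟨q, rfl⟩
    have := hf' q
    rwa [zero_add, two_mul] at this

end Pool.Agent.Results.MP_d88dfe_an.DevronAll
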